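import Pool.Agent.Y787.HS.Log

/-!
# Finiteness of boxes, combinations
-/

set_option autoImplicit false

namespace Pool.Agent.Y787.HS

theorem box_finite (m N H : ℕ) : {A : Fin m → Fin N → ℤ | ∀ i j, |A i j| ≤ H}.Finite := by
  have h1 : ((Fintype.piFinset fun _ : Fin m => Fintype.piFinset fun _ : Fin N =>
      Finset.Icc (-(H : ℤ)) H : Finset (Fin m → Fin N → ℤ)) :
      Set (Fin m → Fin N → ℤ)).Finite := Finset.finite_toSet _
  refine h1.subset fun A hA => ?_
  rw [Finset.mem_coe, Fintype.mem_piFinset]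
  intro i
  rw [Fintype.mem_piFinset]
  intro j
  rw [Finset.mem_Icc, ← abs_le]
  exact hA i j

end Pool.Agent.Y787.HS
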