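import Pool.Agent.Y787.HS.Rd

/-!
# Tuples of logarithms with relations of bounded degree
-/

set_option autoImplicit false

namespace Pool.Agent.Y787.HS
open Filter Module Pool.Agent.Y787.GL Pool.Agent.Y787.FE
open Pool.Agent.TH519.GL Pool.Agent.TH519.HS
open Pool.Agent.Y787 (QC mem_QC HypC hyperplane hyperplane' Lt_one baker')

variable {Cc : Type} [Field Cc] [CharZero Cc] [IsAlgClosed Cc] [Uncountable Cc] {Lt : Submodule (QC Cc) Cc}
  [HypC Lt]

/-- a subspace of codimension at most one contains the kernel of a linear form -/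
theorem exists_form {K : Type} [Field K] {m : ℕ} (R : Submodule K (Fin m → K))
    (h : m ≤ finrank K R + 1) : ∃ u : Fin m → K, ∀ v : Fin m → K, ∑ i, u i * v i = 0 → v ∈ R := by
  classical
  have h1 := Submodule.finrank_quotient_add_finrank R
  rw [Module.finrank_fintype_fun_eq_card, Fintype.card_fin] at h1
  have h2 : finrank K ((Fin m → K) ⧸ R) ≤ 1 := by omega
  obtain ⟨q, hq⟩ := finrank_le_one_iff.1 h2
  choose c hc using hq
  refine ⟨fun i => c (R.mkQ (Pi.single i 1)), fun v hv => ?_⟩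
  rw [← Submodule.Quotient.mk_eq_zero]
  change R.mkQ v = 0
  have h3 : v = ∑ i, v i • (Pi.single i 1 : Fin m → K) := by
    funext j
    rw [Finset.sum_apply, Finset.sum_eq_single j]
    · rw [Pi.smul_apply, Pi.single_eq_same, smul_eq_mul, mul_one]
    · intro i _ hi
      rw [Pi.smul_apply, Pi.single_eq_of_ne (Ne.symm hi), smul_zero]
    · intro h; exact absurd (Finset.mem_univ j) h
  rw [h3, map_sum]
  have h4 : ∀ i, R.mkQ (v i • (Pi.single i 1 : Fin m → K)) =
      (c (R.mkQ (Pi.single i 1)) * v i) • q := by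
    intro i
    rw [map_smul, ← hc (R.mkQ (Pi.single i 1)), smul_smul, hc, mul_comm]
  rw [Finset.sum_congr rfl fun i _ => h4 i, ← Finset.sum_smul, hv, zero_smul]

/-- relations of minimal degree -/
theorem exists_min {τ : Type} {D : ℕ} (z : τ → Cc) (h : RlK (QC Cc) D z) :
    ∃ f : MvPolynomial τ (QC Cc), f ≠ 0 ∧ f.totalDegree ≤ D ∧ MvPolynomial.aeval z f = 0 ∧
      ∀ g : MvPolynomial τ (QC Cc), g ≠ 0 → MvPolynomial.aeval z g = 0 →
        f.totalDegree ≤ g.totalDegree := by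
  classical
  have hex : ∃ d, ∃ f : MvPolynomial τ (QC Cc), f ≠ 0 ∧ f.totalDegree = d ∧
      MvPolynomial.aeval z f = 0 := by
    obtain ⟨f, h1, h2, h3⟩ := h
    exact ⟨_, f, h1, rfl, h3⟩
  obtain ⟨f, h1, h2, h3⟩ := Nat.find_spec hex
  have hmin : ∀ g : MvPolynomial τ (QC Cc), g ≠ 0 → MvPolynomial.aeval z g = 0 →
      f.totalDegree ≤ g.totalDegree := by
    intro g hg1 hg2
    rw [h2]
    exact Nat.find_min' hex ⟨g, hg1, rfl, hg2⟩
  refine ⟨f, h1, ?_, h3, hmin⟩
  obtain ⟨f', h1', h2', h3'⟩ := h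
  exact (hmin f' h1' h3').trans h2'

theorem rank_one {n m D : ℕ} (x : Fin n → Cc) (y : Fin m → Cc) (hx : ¬ RlK (QC Cc) D x)
    (f : MvPolynomial (Fin n ⊕ Fin m) (QC Cc)) (hf0 : f ≠ 0) (hfD : f.totalDegree ≤ D)
    (hf : MvPolynomial.aeval (Sum.elim x y) f = 0)
    (hmin : ∀ g : MvPolynomial (Fin n ⊕ Fin m) (QC Cc), g ≠ 0 →
      MvPolynomial.aeval (Sum.elim x y) g = 0 → f.totalDegree ≤ g.totalDegree) :
    finrank (QC Cc) (RelF (Sum.elim x y) f) ≤ m - 1 := by
  by_contra hcon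
  have h1 : finrank (QC Cc) (RelF (Sum.elim x y) f) ≤ m := by
    have := Submodule.finrank_le (RelF (Sum.elim x y) f)
    rwa [Module.finrank_fintype_fun_eq_card, Fintype.card_fin] at this
  have h2 : RelF (Sum.elim x y) f = ⊤ := by
    apply Submodule.eq_top_of_finrank_eq
    rw [Module.finrank_fintype_fun_eq_card, Fintype.card_fin]
    omega
  refine hx ((red x y f hf0 hfD hf hmin 0 fun v _ => ?_).1 rfl)
  have h3 : v ∈ RelF (Sum.elim x y) f := by
    rw [h2]
    exact Submodule.mem_top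
  exact h3 0

theorem rank_two {n m D : ℕ} (x : Fin n → Cc) (y : Fin m → Cc) (hx : ¬ RlK (QC Cc) D x)
    (hy : ∀ u : Fin m → (QC Cc), u ≠ 0 →
      ¬ RlK (QC Cc) D (Sum.elim x (fun _ : Fin 1 => ∑ i, (u i : Cc) * y i)))
    (f : MvPolynomial (Fin n ⊕ Fin m) (QC Cc)) (hf0 : f ≠ 0) (hfD : f.totalDegree ≤ D)
    (hf : MvPolynomial.aeval (Sum.elim x y) f = 0)
    (hmin : ∀ g : MvPolynomial (Fin n ⊕ Fin m) (QC Cc), g ≠ 0 →
      MvPolynomial.aeval (Sum.elim x y) g = 0 → f.totalDegree ≤ g.totalDegree) :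
    finrank (QC Cc) (RelF (Sum.elim x y) f) ≤ m - 2 := by
  by_contra hcon
  obtain ⟨u, hu⟩ := exists_form (RelF (Sum.elim x y) f) (by omega)
  have h1 := red x y f hf0 hfD hf hmin u fun v hv => hu v hv 0
  by_cases h2 : u = 0
  · exact hx (h1.1 h2)
  · exact hy u h2 (h1.2 h2)

/-- coordinates of tuples -/
noncomputable def mkV {K W : Type} [Field K] [AddCommGroup W] [Module K W]
    [FiniteDimensional K W] (m : ℕ) : (Fin m × Fin (finrank K W) → K) →ₗ[K] (Fin m → W) where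
  toFun b := fun i => ∑ j, b (i, j) • Module.finBasis K W j
  map_add' b b' := by
    funext i
    simp only [Pi.add_apply, add_smul, Finset.sum_add_distrib]
  map_smul' c b := by
    funext i
    simp only [Pi.smul_apply, smul_eq_mul, mul_smul, Finset.smul_sum, RingHom.id_apply]

theorem cmb_bs' (W : Submodule (QC Cc) Cc) [FiniteDimensional (QC Cc) W] (w : W) :
    cmb (bs W) (fun j => (Module.finBasis (QC Cc) W).repr w j) = w := by
  have h1 := congrArg (fun y : W => (y : Cc)) ((Module.finBasis (QC Cc) W).sum_repr w)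
  simp only [Submodule.coe_sum, Submodule.coe_smul] at h1
  rw [cmb]
  refine Eq.trans ?_ h1
  refine Finset.sum_congr rfl fun j _ => ?_
  rw [Algebra.smul_def]
  rfl

/-- **Relations of bounded degree, `ρ = m - 1` or `m - 2`.** -/
theorem final_aux (W : Submodule (QC Cc) Cc) [FiniteDimensional (QC Cc) W] (hW : W ≤ Lt) {n m D ρ : ℕ}
    (x : Fin n → Cc) (φ : Fin (m * (m - 1) + ρ * finrank (QC Cc) W + (D + (n + m)).choose (n + m)) →
      ((Fin m → W) →ₗ[(QC Cc)] (QC Cc))) :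
    ∃ P : MvPolynomial (Fin (m * (m - 1) + ρ * finrank (QC Cc) W + (D + (n + m)).choose (n + m))) (QC Cc),
      P ≠ 0 ∧ ∀ y : Fin m → W,
        (∃ f : MvPolynomial (Fin n ⊕ Fin m) (QC Cc), f ≠ 0 ∧
        f.totalDegree ≤ D ∧ MvPolynomial.aeval (Sum.elim x fun i => (y i : Cc)) f = 0 ∧
        finrank (QC Cc) (RelF (Sum.elim x fun i => (y i : Cc)) f) ≤ ρ) →
        MvPolynomial.eval (fun k => φ k y) P = 0 := by
  obtain ⟨P, h1, h2⟩ := rel_dim (D := D) (ρ := ρ) (bs W) (bs_li W)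
    (fun j => hW (Module.finBasis (QC Cc) W j).2) x (fun k => φ k ∘ₗ mkV m)
  refine ⟨P, h1, ?_⟩
  rintro y ⟨f, hf0, hfD, hf, hr⟩
  have h3 : yy (bs W) (fun i j => (Module.finBasis (QC Cc) W).repr (y i) j) = fun i => (y i : Cc) := by
    funext i
    exact cmb_bs' W (y i)
  have h4 := h2 (fun i j => (Module.finBasis (QC Cc) W).repr (y i) j) f hf0 hfD (by
    rw [h3]
    exact hf) (by
    rw [h3]
    exact hr)
  have h5 : mkV (K := (QC Cc)) (W := W) m (fun q => (Module.finBasis (QC Cc) W).repr (y q.1) q.2) =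
      y := by
    funext i
    exact (Module.finBasis (QC Cc) W).sum_repr (y i)
  simp only [LinearMap.comp_apply, h5] at h4
  exact h4

/-- **Relations between arbitrary numbers `x` and tuples of linear forms in logarithms.** -/
theorem final_one (W : Submodule (QC Cc) Cc) [FiniteDimensional (QC Cc) W] (hW : W ≤ Lt) {n m D : ℕ}
    (x : Fin n → Cc) (hx : ¬ RlK (QC Cc) D x)
    (φ : Fin (m * (m - 1) + (m - 1) * finrank (QC Cc) W + (D + (n + m)).choose (n + m)) →
      ((Fin m → W) →ₗ[(QC Cc)] (QC Cc))) :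
    ∃ P : MvPolynomial (Fin (m * (m - 1) + (m - 1) * finrank (QC Cc) W +
        (D + (n + m)).choose (n + m))) (QC Cc),
      P ≠ 0 ∧ ∀ y : Fin m → W, RlK (QC Cc) D (Sum.elim x fun i => (y i : Cc)) →
        MvPolynomial.eval (fun k => φ k y) P = 0 := by
  obtain ⟨P, h1, h2⟩ := final_aux (D := D) W hW x φ
  refine ⟨P, h1, fun y hy => h2 y ?_⟩
  obtain ⟨f, hf0, hfD, hf, hmin⟩ := exists_min _ hy
  exact ⟨f, hf0, hfD, hf, rank_one x _ hx f hf0 hfD hf hmin⟩

/-- **Relations between tuples without exceptional combinations.** -/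
theorem final_two (W : Submodule (QC Cc) Cc) [FiniteDimensional (QC Cc) W] (hW : W ≤ Lt) {n m D : ℕ}
    (x : Fin n → Cc) (hx : ¬ RlK (QC Cc) D x)
    (φ : Fin (m * (m - 1) + (m - 2) * finrank (QC Cc) W + (D + (n + m)).choose (n + m)) →
      ((Fin m → W) →ₗ[(QC Cc)] (QC Cc))) :
    ∃ P : MvPolynomial (Fin (m * (m - 1) + (m - 2) * finrank (QC Cc) W +
        (D + (n + m)).choose (n + m))) (QC Cc),
      P ≠ 0 ∧ ∀ y : Fin m → W,
        (∀ u : Fin m → (QC Cc), u ≠ 0 →
          ¬ RlK (QC Cc) D (Sum.elim x (fun _ : Fin 1 => ∑ i, (u i : Cc) * (y i : Cc)))) →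
        RlK (QC Cc) D (Sum.elim x fun i => (y i : Cc)) →
        MvPolynomial.eval (fun k => φ k y) P = 0 := by
  obtain ⟨P, h1, h2⟩ := final_aux (D := D) W hW x φ
  refine ⟨P, h1, fun y hu hy => h2 y ?_⟩
  obtain ⟨f, hf0, hfD, hf, hmin⟩ := exists_min _ hy
  exact ⟨f, hf0, hfD, hf, rank_two x _ hx hu f hf0 hfD hf hmin⟩

end Pool.Agent.Y787.HS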