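import Pool.Agent.Y787.HS.Alg

/-!
# Linear algebra for tangent spaces of families with parameters
-/

set_option autoImplicit false

namespace Pool.Agent.Y787.HS
open Filter Module Pool.Agent.Y787.GL Pool.Agent.Y787.FE
open Pool.Agent.TH519.GL Pool.Agent.TH519.HS
open Pool.Agent.Y787 (QC mem_QC HypC hyperplane hyperplane' Lt_one baker')

variable {Cc : Type} [Field Cc] [CharZero Cc] [IsAlgClosed Cc] [Uncountable Cc] {Lt : Submodule (QC Cc) Cc}
  [HypC Lt]

/-- the rational relations between the columns of a complex matrix -/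
def Rel {r m : ℕ} (G : Fin r → Fin m → Cc) : Submodule (QC Cc) (Fin m → (QC Cc)) where
  carrier := {v | ∀ j, ∑ i, (v i : Cc) * G j i = 0}
  add_mem' := by
    intro v w hv hw j
    have h1 := hv j
    have h2 := hw j
    have h3 : ∑ i, ((v + w) i : Cc) * G j i = ∑ i, (v i : Cc) * G j i + ∑ i, (w i : Cc) * G j i := by
      rw [← Finset.sum_add_distrib]
      refine Finset.sum_congr rfl fun i _ => ?_
      rw [Pi.add_apply]
      push_cast
      ring
    rw [h3, h1, h2, add_zero]
  zero_mem' := by
    intro j
    refine Finset.sum_eq_zero fun i _ => ?_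
    rw [Pi.zero_apply]
    push_cast
    rw [zero_mul]
  smul_mem' := by
    intro c v hv j
    have h1 := hv j
    have h3 : ∑ i, ((c • v) i : Cc) * G j i = (c : Cc) * ∑ i, (v i : Cc) * G j i := by
      rw [Finset.mul_sum]
      refine Finset.sum_congr rfl fun i _ => ?_
      rw [Pi.smul_apply, smul_eq_mul]
      push_cast
      ring
    rw [h3, h1, mul_zero]

theorem mem_Rel {r m : ℕ} {G : Fin r → Fin m → Cc} {v : Fin m → (QC Cc)} :
    v ∈ Rel G ↔ ∀ j, ∑ i, (v i : Cc) * G j i = 0 := Iff.rfl

/-- **The linear algebra of tangent vectors of families.** -/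
theorem tangent_bound' {M m n r s p ρ : ℕ} (l' : Fin M → Cc) (hl : LinearIndependent (QC Cc) l')
    (hl' : ∀ j, l' j ∈ Lt) (G : Fin r → Fin m → Cc) (H : Fin r → Fin p → Cc) (e : Fin s → Fin m)
    (hG : finrank (QC Cc) ((Rel G).map (LinearMap.funLeft (QC Cc) (QC Cc) e)) ≤ ρ)
    (g : Fin n → Fin m → Fin M → (QC Cc)) (g' : Fin n → Fin p → (QC Cc))
    (hrel : ∀ k j, ∑ i, G j i * cmb l' (g k i) + ∑ l, H j l * (g' k l : Cc) = 0)
    (hind : ∀ q : Fin n → (QC Cc), (∀ i j, ∑ k, q k * g k (e i) j = 0) → q = 0) :
    n ≤ m * (m - 1) + ρ * M + p := by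
  classical
  obtain ⟨γ, hγ⟩ := exists_weights G
  set a : Fin m → Cc := fun i => ∑ j, γ j * G j i with ha
  set V : Submodule (QC Cc) Cc := Submodule.span (QC Cc) (Set.range a) with hV
  have hfd : FiniteDimensional (QC Cc) V := FiniteDimensional.span_of_finite (QC Cc) (Set.finite_range a)
  have hVm : finrank (QC Cc) V ≤ m := by
    have := finrank_range_le_card (R := (QC Cc)) a
    rwa [Fintype.card_fin] at this
  let B := Module.finBasis (QC Cc) V
  set ξ : Fin (finrank (QC Cc) V) → Cc := fun t => ((B t : V) : Cc) with hξ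
  have hξi : LinearIndependent (QC Cc) ξ :=
    B.linearIndependent.map' V.subtype (Submodule.ker_subtype _)
  have hmem : ∀ i, a i ∈ V := fun i => Submodule.subset_span ⟨i, rfl⟩
  set R : Fin m → Fin (finrank (QC Cc) V) → (QC Cc) := fun i t => B.repr ⟨a i, hmem i⟩ t with hR
  have haR : ∀ i, a i = ∑ t, (R i t : Cc) * ξ t := by
    intro i
    have h1 := congrArg (fun y : V => (y : Cc)) (B.sum_repr ⟨a i, hmem i⟩)
    simp only [Submodule.coe_sum, Submodule.coe_smul] at h1
    rw [← h1]
    refine Finset.sum_congr rfl fun t _ => ?_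
    rw [Algebra.smul_def]
    rfl
  have hsum : ∀ (w : Fin m → Cc), ∑ t, ξ t * ∑ i, (R i t : Cc) * w i = ∑ i, a i * w i := by
    intro w
    simp only [haR, Finset.mul_sum, Finset.sum_mul]
    rw [Finset.sum_comm]
    refine Finset.sum_congr rfl fun i _ => Finset.sum_congr rfl fun t _ => ?_
    ring
  -- the two linear maps
  let T0 : (Fin n → (QC Cc)) →ₗ[(QC Cc)] (Fin p → (QC Cc)) := Fintype.linearCombination (QC Cc) g'
  have hT0 : ∀ q l, T0 q l = ∑ k, q k * g' k l := by
    intro q l
    change (Fintype.linearCombination (QC Cc) g' q) l = _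
    rw [Fintype.linearCombination_apply, Finset.sum_apply]
    rfl
  let T : (Fin n → (QC Cc)) →ₗ[(QC Cc)] (Fin (finrank (QC Cc) V) → Cc) :=
    Fintype.linearCombination (QC Cc) (fun k t => ∑ i, (R i t : Cc) * cmb l' (g k i))
  have hT : ∀ q t, T q t = ∑ i, (R i t : Cc) * cmb l' (fun j => ∑ k, q k * g k i j) := by
    intro q t
    change (Fintype.linearCombination (QC Cc) (fun k t => ∑ i, (R i t : Cc) * cmb l' (g k i)) q) t = _
    rw [Fintype.linearCombination_apply, Finset.sum_apply]
    simp only [Pi.smul_apply]
    have h1 : ∀ k, q k • ∑ i, (R i t : Cc) * cmb l' (g k i) =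
        ∑ i, (R i t : Cc) * ((q k : Cc) * cmb l' (g k i)) := by
      intro k
      rw [Algebra.smul_def, Finset.mul_sum]
      refine Finset.sum_congr rfl fun i _ => ?_
      change (q k : Cc) * _ = _
      ring
    simp only [h1]
    rw [Finset.sum_comm]
    refine Finset.sum_congr rfl fun i _ => ?_
    rw [← Finset.mul_sum, cmb_sum]
  set U := LinearMap.ker T0 with hU
  have h1 : n ≤ finrank (QC Cc) U + p := by
    have h2 := LinearMap.finrank_range_add_finrank_ker T0
    have h3 : finrank (QC Cc) (LinearMap.range T0) ≤ p := by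
      have := Submodule.finrank_le (LinearMap.range T0)
      rwa [Module.finrank_fintype_fun_eq_card, Fintype.card_fin] at this
    rw [Module.finrank_fintype_fun_eq_card, Fintype.card_fin, ← hU] at h2
    omega
  set T' := T ∘ₗ U.subtype with hT'
  have h2 := LinearMap.finrank_range_add_finrank_ker T'
  have h3 : finrank (QC Cc) (LinearMap.range T') ≤ m * (m - 1) := by
    have h4 : finrank (QC Cc) (LinearMap.range T') ≤ finrank (QC Cc) V * (finrank (QC Cc) V - 1) := by
      let e := Module.finBasis (QC Cc) (LinearMap.range T')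
      have hmem : ∀ k, ∃ q : U, T' q = (e k : Fin (finrank (QC Cc) V) → Cc) := fun k => (e k).2
      choose q hq using hmem
      refine Pool.Agent.Y787.hyperplane (Lt := Lt) (finrank (QC Cc) V) _ ξ
        (fun i k => (e k : Fin (finrank (QC Cc) V) → Cc) i) hξi ?_ ?_ ?_
      · intro i k
        rw [← hq k]
        change T (q k : Fin n → (QC Cc)) i ∈ Lt
        rw [hT]
        refine Submodule.sum_mem _ fun i _ => smul_Lt _ (cmb_mem_Lt' hl' _)
      · intro k
        rw [← hq k]
        have h5 : ∀ t, T' (q k) t =
            ∑ i, (R i t : Cc) * cmb l' (fun j => ∑ k', (q k : Fin n → (QC Cc)) k' * g k' i j) :=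
          fun t => hT _ t
        simp only [h5]
        rw [hsum]
        simp only [ha, Finset.sum_mul]
        rw [Finset.sum_comm]
        refine Finset.sum_eq_zero fun j _ => ?_
        have h6 : ∑ i, G j i * cmb l' (fun j => ∑ k', (q k : Fin n → (QC Cc)) k' * g k' i j) = 0 := by
          have h7 : ∀ l, ∑ k', (q k : Fin n → (QC Cc)) k' * g' k' l = 0 := by
            intro l
            have : T0 (q k : Fin n → (QC Cc)) = 0 := LinearMap.mem_ker.1 (q k).2
            rw [← hT0, this]
            rfl
          have h8 : ∑ k', ((q k : Fin n → (QC Cc)) k' : Cc) *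
              (∑ i, G j i * cmb l' (g k' i) + ∑ l, H j l * (g' k' l : Cc)) = 0 := by
            refine Finset.sum_eq_zero fun k' _ => ?_
            rw [hrel, mul_zero]
          have h9 : ∑ k', ((q k : Fin n → (QC Cc)) k' : Cc) *
              (∑ i, G j i * cmb l' (g k' i) + ∑ l, H j l * (g' k' l : Cc)) =
              ∑ i, G j i * cmb l' (fun j => ∑ k', (q k : Fin n → (QC Cc)) k' * g k' i j) +
              ∑ l, H j l * ((∑ k', (q k : Fin n → (QC Cc)) k' * g' k' l : (QC Cc)) : Cc) := by
            simp only [mul_add, Finset.sum_add_distrib]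
            congr 1
            · simp only [← cmb_sum, Finset.mul_sum]
              rw [Finset.sum_comm]
              refine Finset.sum_congr rfl fun i _ => Finset.sum_congr rfl fun k' _ => ?_
              ring
            · push_cast
              simp only [Finset.mul_sum]
              rw [Finset.sum_comm]
              refine Finset.sum_congr rfl fun i _ => Finset.sum_congr rfl fun k' _ => ?_
              ring
          rw [h9] at h8
          have h10 : ∑ l, H j l * ((∑ k', (q k : Fin n → (QC Cc)) k' * g' k' l : (QC Cc)) : Cc) = 0 := by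
            refine Finset.sum_eq_zero fun l _ => ?_
            rw [h7 l]
            push_cast
            rw [mul_zero]
          rwa [h10, add_zero] at h8
        have h11 : ∑ i, γ j * G j i * cmb l' (fun j => ∑ k', (q k : Fin n → (QC Cc)) k' * g k' i j) =
            γ j * ∑ i, G j i * cmb l' (fun j => ∑ k', (q k : Fin n → (QC Cc)) k' * g k' i j) := by
          rw [Finset.mul_sum]
          refine Finset.sum_congr rfl fun i _ => ?_
          ring
        rw [h11, h6, mul_zero]
      · exact e.linearIndependent.map' (LinearMap.range T').subtype (Submodule.ker_subtype _)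
    exact h4.trans (Nat.mul_le_mul hVm (Nat.sub_le_sub_right hVm 1))
  have h4 : finrank (QC Cc) (LinearMap.ker T') ≤ ρ * M := by
    set N := (Rel G).map (LinearMap.funLeft (QC Cc) (QC Cc) e) with hN
    -- the column map
    let C : (Fin n → (QC Cc)) →ₗ[(QC Cc)] (Fin M → Fin m → (QC Cc)) :=
      Fintype.linearCombination (QC Cc) (fun k j i => g k i j)
    have hC : ∀ q j i, C q j i = ∑ k, q k * g k i j := by
      intro q j i
      change (Fintype.linearCombination (QC Cc) (fun k j i => g k i j) q) j i = _
      rw [Fintype.linearCombination_apply, Finset.sum_apply, Finset.sum_apply]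
      rfl
    have hCR : ∀ q : LinearMap.ker T', ∀ j, C ((q : U) : Fin n → (QC Cc)) j ∈ Rel G := by
      intro q j
      have h5 : ∀ t, ∑ i, R i t * C ((q : U) : Fin n → (QC Cc)) j i = 0 := by
        intro t
        have h6 : T ((q : U) : Fin n → (QC Cc)) t = 0 := by
          have := q.2
          rw [LinearMap.mem_ker] at this
          change T' (q : U) t = 0
          rw [this]
          rfl
        rw [hT] at h6
        have h7 := cmb_sum l' (fun i => R i t)
          (fun i j => ∑ k, ((q : U) : Fin n → (QC Cc)) k * g k i j)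
        rw [h7] at h6
        have h8 := congrFun (cmb_eq_zero hl h6) j
        simp only [hC]
        exact h8
      rw [mem_Rel]
      apply hγ
      have h9 := hsum (fun i => (C ((q : U) : Fin n → (QC Cc)) j i : Cc))
      have h10 : ∑ t, ξ t * ∑ i, (R i t : Cc) * (C ((q : U) : Fin n → (QC Cc)) j i : Cc) = 0 := by
        refine Finset.sum_eq_zero fun t _ => ?_
        have h6 := congrArg (fun q : (QC Cc) => (q : Cc)) (h5 t)
        push_cast at h6
        rw [h6, mul_zero]
      rw [h10] at h9
      rw [h9]
      refine Finset.sum_congr rfl fun i _ => ?_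
      rw [mul_comm]
    let F : LinearMap.ker T' →ₗ[(QC Cc)] (Fin M → N) :=
      LinearMap.pi fun j => LinearMap.codRestrict N
        ((LinearMap.funLeft (QC Cc) (QC Cc) e) ∘ₗ (LinearMap.proj j) ∘ₗ C ∘ₗ U.subtype ∘ₗ
          (LinearMap.ker T').subtype) (fun q => ⟨_, hCR q j, rfl⟩)
    have hF : Function.Injective F := by
      rw [injective_iff_map_eq_zero]
      intro q hq
      apply Subtype.ext
      apply Subtype.ext
      refine hind _ fun i j => ?_
      have h5 := congrArg (fun x => ((x j : N) : Fin s → (QC Cc)) i) hq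
      change C ((q : U) : Fin n → (QC Cc)) j (e i) = 0 at h5
      rw [hC] at h5
      exact h5
    have h5 := LinearMap.finrank_le_finrank_of_injective hF
    rw [Module.finrank_pi_fintype] at h5
    simp only [Finset.sum_const, Finset.card_univ, Fintype.card_fin, smul_eq_mul] at h5
    calc _ ≤ M * finrank (QC Cc) N := h5
      _ ≤ M * ρ := Nat.mul_le_mul_left _ hG
      _ = ρ * M := mul_comm _ _
  omega

end Pool.Agent.Y787.HS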