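import Pool.Agent.Y787.HS.Fn
import Pool.Agent.TH519.HS.Cnt

/-!
# Independent logarithms with relations of bounded degree
-/

set_option autoImplicit false

namespace Pool.Agent.Y787.HS
open Filter Module Pool.Agent.Y787.GL Pool.Agent.Y787.FE
open Pool.Agent.TH519.GL Pool.Agent.TH519.HS
open Pool.Agent.Y787 (QC mem_QC HypC hyperplane hyperplane' Lt_one baker')

variable {Cc : Type} [Field Cc] [CharZero Cc] [IsAlgClosed Cc] [Uncountable Cc] {Lt : Submodule (QC Cc) Cc}
  [HypC Lt]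

theorem two_coord {M n m D : ℕ} (l' : Fin M → Cc) (hl : LinearIndependent (QC Cc) l')
    (hl' : ∀ j, l' j ∈ Lt) (x : Fin n → Cc) (hx : ¬ RlK (QC Cc) D x)
    (φ : Fin (m * (m - 1) + (m - 2) * M + (D + (n + m)).choose (n + m)) →
      ((Fin m × Fin M → (QC Cc)) →ₗ[(QC Cc)] (QC Cc))) :
    ∃ P : MvPolynomial (Fin (m * (m - 1) + (m - 2) * M + (D + (n + m)).choose (n + m))) (QC Cc),
      P ≠ 0 ∧ ∀ b : Fin m → Fin M → (QC Cc),
        (∀ u : Fin m → (QC Cc), u ≠ 0 →
          ¬ RlK (QC Cc) D (Sum.elim x (fun _ : Fin 1 => ∑ i, (u i : Cc) * yy l' b i))) →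
        RlK (QC Cc) D (Sum.elim x (yy l' b)) →
        MvPolynomial.eval (fun k => φ k (fun q => b q.1 q.2)) P = 0 := by
  obtain ⟨P, h1, h2⟩ := rel_dim (D := D) (ρ := m - 2) l' hl hl' x φ
  refine ⟨P, h1, fun b hu hy => ?_⟩
  obtain ⟨f, hf0, hfD, hf, hmin⟩ := exists_min _ hy
  exact h2 b f hf0 hfD hf (rank_two x _ hx hu f hf0 hfD hf hmin)

theorem not_RlK_zero {D : ℕ} (x : Fin 0 → Cc) : ¬ RlK (QC Cc) D x := by
  rintro ⟨f, h1, -, h3⟩
  rw [MvPolynomial.eq_C_of_isEmpty f] at h1 h3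
  rw [MvPolynomial.algHom_C] at h3
  apply h1
  rw [(map_eq_zero (algebraMap (QC Cc) Cc)).1 h3, MvPolynomial.C_0]

theorem mem_of_RlK {D : ℕ} (x : Fin 0 → Cc) (z : Cc)
    (h : RlK (QC Cc) D (Sum.elim x (fun _ : Fin 1 => z))) : z ∈ (QC Cc) := by
  let _ : Unique (Fin 0 ⊕ Fin 1) :=
    { default := Sum.inr 0
      uniq := by
        rintro (a | a)
        · exact a.elim0
        · rw [Subsingleton.elim a 0] }
  by_contra hz
  obtain ⟨f, h1, -, h3⟩ := h
  have h4 : AlgebraicIndependent (QC Cc) (Sum.elim x (fun _ : Fin 1 => z)) := by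
    rw [algebraicIndependent_unique_type_iff]
    change Transcendental (QC Cc) z
    intro h5
    apply hz
    rw [mem_QC]
    have h6 : Algebra.IsAlgebraic ℚ (QC Cc) := algebraicClosure.isAlgebraic ℚ Cc
    exact IsAlgebraic.restrictScalars ℚ h5
  rw [algebraicIndependent_iff] at h4
  exact h1 (h4 f h3)

theorem pure_coord {M m D q : ℕ} (l' : Fin M → Cc) (hl : LinearIndependent (QC Cc) l')
    (hl' : ∀ j, l' j ∈ Lt) (hq : q = m * (m - 1) + (m - 2) * M + (D + m).choose m)
    (φ : Fin q → ((Fin m × Fin M → (QC Cc)) →ₗ[(QC Cc)] (QC Cc))) :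
    ∃ P : MvPolynomial (Fin q) (QC Cc),
      P ≠ 0 ∧ ∀ b : Fin m → Fin M → (QC Cc),
        LinearIndependent (QC Cc) (Fin.cons 1 (yy l' b) : Fin (m + 1) → Cc) → RlK (QC Cc) D (yy l' b) →
        MvPolynomial.eval (fun k => φ k (fun q => b q.1 q.2)) P = 0 := by
  have hq' : q = m * (m - 1) + (m - 2) * M + (D + (0 + m)).choose (0 + m) := by
    rw [zero_add]
    exact hq
  subst hq'
  obtain ⟨P, h1, h2⟩ := two_coord (D := D) l' hl hl' (fun i : Fin 0 => i.elim0)
    (not_RlK_zero _) φ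
  refine ⟨P, h1, fun b hli hrel => h2 b (fun u hu h => ?_) ?_⟩
  · have hz := mem_of_RlK _ _ h
    rw [Fintype.linearIndependent_iff] at hli
    have h3 := hli (Fin.cons (-⟨_, hz⟩) u) (by
      rw [Fin.sum_univ_succ]
      simp only [Fin.cons_zero, Fin.cons_succ]
      have h4 : ∀ i, u i • yy l' b i = (u i : Cc) * yy l' b i := by
        intro i
        rw [Algebra.smul_def]
        rfl
      simp only [h4]
      rw [Algebra.smul_def, mul_one, map_neg]
      exact neg_add_cancel _)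
    apply hu
    funext i
    have := h3 i.succ
    rwa [Fin.cons_succ] at this
  · obtain ⟨f, hf0, hfD, hf⟩ := hrel
    refine ⟨MvPolynomial.rename Sum.inr f, ?_, ?_, ?_⟩
    · intro h
      apply hf0
      apply MvPolynomial.rename_injective _ Sum.inr_injective
      rw [h, map_zero]
    · exact (MvPolynomial.totalDegree_rename_le _ _).trans hfD
    · rw [MvPolynomial.aeval_rename]
      exact hf

/-- **The dimension theorem.** -/
theorem pure_dim (W : Submodule (QC Cc) Cc) [FiniteDimensional (QC Cc) W] (hW : W ≤ Lt) {m D : ℕ}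
    (φ : Fin (m * (m - 1) + (m - 2) * finrank (QC Cc) W + (D + m).choose m) →
      ((Fin m → W) →ₗ[(QC Cc)] (QC Cc))) :
    ∃ P : MvPolynomial (Fin (m * (m - 1) + (m - 2) * finrank (QC Cc) W + (D + m).choose m)) (QC Cc),
      P ≠ 0 ∧ ∀ y : Fin m → W,
        LinearIndependent (QC Cc) (Fin.cons 1 (fun i => (y i : Cc)) : Fin (m + 1) → Cc) →
        RlK (QC Cc) D (fun i => (y i : Cc)) →
        MvPolynomial.eval (fun k => φ k y) P = 0 := by
  obtain ⟨P, h1, h2⟩ := pure_coord (D := D) (bs W) (bs_li W)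
    (fun j => hW (Module.finBasis (QC Cc) W j).2) rfl (fun k => φ k ∘ₗ mkV m)
  refine ⟨P, h1, fun y hy1 hy2 => ?_⟩
  have h3 : yy (bs W) (fun i j => (Module.finBasis (QC Cc) W).repr (y i) j) = fun i => (y i : Cc) := by
    funext i
    exact cmb_bs' W (y i)
  have h4 := h2 (fun i j => (Module.finBasis (QC Cc) W).repr (y i) j) (by
    rw [h3]
    exact hy1) (by
    rw [h3]
    exact hy2)
  have h5 : mkV (K := (QC Cc)) (W := W) m (fun q => (Module.finBasis (QC Cc) W).repr (y q.1) q.2) =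
      y := by
    funext i
    exact (Module.finBasis (QC Cc) W).sum_repr (y i)
  simp only [LinearMap.comp_apply, h5] at h4
  exact h4

/-- **The counting theorem.** -/
theorem pure_count {N : ℕ} (l : Fin N → Cc) (hl : LinearIndependent (QC Cc) l)
    (hl' : ∀ j, l j ∈ Lt) (m D : ℕ) :
    ∃ κ : ℕ, ∀ H : ℕ, 1 ≤ H → Set.ncard {A : Fin m → Fin N → ℤ | (∀ i j, |A i j| ≤ H) ∧
      LinearIndependent (QC Cc) (Fin.cons 1 (fun i => ∑ j, (A i j : Cc) * l j) : Fin (m + 1) → Cc) ∧
      RlK (QC Cc) D (fun i => ∑ j, (A i j : Cc) * l j)} ≤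
      κ * H ^ (m * (m - 1) + (m - 2) * N + (D + m).choose m - 1) := by
  classical
  have hpos : 0 < (D + m).choose m := Nat.choose_pos (Nat.le_add_left _ _)
  obtain ⟨d, hd⟩ : ∃ d, d + 1 = m * (m - 1) + (m - 2) * N + (D + m).choose m :=
    ⟨m * (m - 1) + (m - 2) * N + (D + m).choose m - 1, by omega⟩
  let ε : Fin (m * N) ≃ Fin m × Fin N := finProdFinEquiv.symm
  let S : Set (Fin (m * N) → (QC Cc)) := {x | LinearIndependent (QC Cc)
      (Fin.cons 1 (yy l fun i j => x (ε.symm (i, j))) : Fin (m + 1) → Cc) ∧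
      RlK (QC Cc) D (yy l fun i j => x (ε.symm (i, j)))}
  obtain ⟨κ, hκ⟩ := count (d := d) S (by
    intro φ
    obtain ⟨P, h1, h2⟩ := pure_coord (D := D) (m := m) l hl hl' hd
      (fun k => φ k ∘ₗ LinearMap.funLeft (QC Cc) (QC Cc) ε)
    refine ⟨P, h1, fun x hx => ?_⟩
    have h3 := h2 (fun i j => x (ε.symm (i, j))) hx.1 hx.2
    have h4 : LinearMap.funLeft (QC Cc) (QC Cc) ε (fun q : Fin m × Fin N => x (ε.symm (q.1, q.2))) = x := by
      funext i
      change x (ε.symm ((ε i).1, (ε i).2)) = x i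
      rw [Prod.mk.eta, Equiv.symm_apply_apply]
    simp only [LinearMap.comp_apply, h4] at h3
    exact h3)
  refine ⟨κ, fun H hH => ?_⟩
  have hd' : m * (m - 1) + (m - 2) * N + (D + m).choose m - 1 = d := by omega
  rw [hd']
  set T := {A : Fin m → Fin N → ℤ | (∀ i j, |A i j| ≤ H) ∧
      LinearIndependent (QC Cc) (Fin.cons 1 (fun i => ∑ j, (A i j : Cc) * l j) : Fin (m + 1) → Cc) ∧
      RlK (QC Cc) D (fun i => ∑ j, (A i j : Cc) * l j)} with hT
  have hfin : T.Finite := by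
    have h1 : ((Fintype.piFinset fun _ : Fin m => Fintype.piFinset fun _ : Fin N =>
        Finset.Icc (-(H : ℤ)) H : Finset (Fin m → Fin N → ℤ)) :
        Set (Fin m → Fin N → ℤ)).Finite := Finset.finite_toSet _
    refine h1.subset fun A hA => ?_
    rw [Finset.mem_coe, Fintype.mem_piFinset]
    intro i
    rw [Fintype.mem_piFinset]
    intro j
    rw [Finset.mem_Icc, ← abs_le]
    exact hA.1 i j
  rw [Set.ncard_eq_toFinset_card T hfin]
  let g : (Fin m → Fin N → ℤ) → (Fin (m * N) → ℤ) := fun A k => A (ε k).1 (ε k).2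
  have hg : Function.Injective g := by
    intro A A' h
    funext i j
    have := congrFun h (ε.symm (i, j))
    simp only [g, Equiv.apply_symm_apply] at this
    exact this
  rw [← Finset.card_image_of_injective _ hg]
  refine hκ H hH _ ?_
  intro a ha
  obtain ⟨A, hA, rfl⟩ := Finset.mem_image.1 ha
  rw [Set.Finite.mem_toFinset] at hA
  refine ⟨fun k => hA.1 _ _, ?_⟩
  have h1 : (yy l fun i j => (fun k => ((g A k : ℤ) : (QC Cc))) (ε.symm (i, j))) =
      fun i => ∑ j, (A i j : Cc) * l j := by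
    funext i
    simp only [yy, cmb, g, Equiv.apply_symm_apply]
    refine Finset.sum_congr rfl fun j _ => ?_
    rw [map_intCast]
  change LinearIndependent (QC Cc) _ ∧ RlK (QC Cc) D _
  rw [h1]
  exact hA.2

end Pool.Agent.Y787.HS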