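import Pool.Agent.Y787.HS.Qg2
import Pool.Agent.Y787.HS.SgF

/-!
# Quadratic relations between linear forms in logarithms: dimension and counting
-/

set_option autoImplicit false

namespace Pool.Agent.Y787.HS
open Filter Module Pool.Agent.Y787.GL Pool.Agent.Y787.FE
open Pool.Agent.TH519.GL Pool.Agent.TH519.HS
open Pool.Agent.Y787 (QC mem_QC HypC hyperplane hyperplane' Lt_one baker')

variable {Cc : Type} [Field Cc] [CharZero Cc] [IsAlgClosed Cc] [Uncountable Cc] {Lt : Submodule (QC Cc) Cc}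
  [HypC Lt]

/-- complex combinations of pairwise orthogonal isotropic vectors over `K` -/
def InIso (K : Type) [Field K] [Algebra K Cc] {m : ℕ} (S : Matrix (Fin m) (Fin m) (QC Cc))
    (y : Fin m → Cc) : Prop :=
  ∃ (s : ℕ) (u : Fin s → Fin m → K) (c : Fin s → Cc),
    (∀ a b, ∑ i, ∑ j, (S i j : Cc) * algebraMap K Cc (u a i) * algebraMap K Cc (u b j) = 0) ∧
    ∀ i, y i = ∑ a, c a * algebraMap K Cc (u a i)

theorem not_iso {K : Type} [Field K] [Algebra K Cc] {m M : ℕ} (S : Matrix (Fin m) (Fin m) (QC Cc))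
    (l : Fin M → Cc) (b : Fin m → Fin M → K)
    (h : ¬ InIso K S (fun i => ∑ k, algebraMap K Cc (b i k) * l k)) :
    ∃ k k', ∑ i, ∑ j, (S i j : Cc) * algebraMap K Cc (b i k) * algebraMap K Cc (b j k') ≠ 0 := by
  by_contra hcon
  push Not at hcon
  refine h ⟨M, fun k i => b i k, l, hcon, fun i => ?_⟩
  refine Finset.sum_congr rfl fun k _ => ?_
  ring

theorem quad_coord2 {m M r q : ℕ} (l' : Fin M → Cc) (hl : LinearIndependent (QC Cc) l')
    (hl' : ∀ j, l' j ∈ Lt) (S : Matrix (Fin m) (Fin m) (QC Cc)) (hS : S.IsSymm)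
    (hr : 2 * m ≤ 2 * r + S.rank + 4)
    (hq : q = r * M + m * (m - 1) + m * (m - 3) + 1)
    (φ : Fin q → ((Fin m × Fin M → (QC Cc)) →ₗ[(QC Cc)] (QC Cc))) :
    ∃ P : MvPolynomial (Fin q) (QC Cc), P ≠ 0 ∧ ∀ b : Fin m → Fin M → (QC Cc),
      ∑ i, ∑ j, (S i j : Cc) * cmb l' (b i) * cmb l' (b j) = 0 →
      (∃ k k', ∑ i, ∑ j, S i j * b i k * b j k' ≠ 0) →
      MvPolynomial.eval (fun k => φ k (fun p => b p.1 p.2)) P = 0 := by
  have h1 := LinearMap.finrank_range_add_finrank_ker (Matrix.mulVecLin S)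
  rw [Module.finrank_fintype_fun_eq_card, Fintype.card_fin] at h1
  have h2 : S.rank = finrank (QC Cc) (LinearMap.range (Matrix.mulVecLin S)) := rfl
  refine quad_coord' (k₀ := finrank (QC Cc) (LinearMap.ker (Matrix.mulVecLin S))) l' hl hl' S hS
    le_rfl (r := r) (by omega) ?_ φ
  rw [hq, mul_comm (m - 3) m]
  ring

/-- coordinates of tuples -/
noncomputable def mkT {K W : Type} [Field K] [AddCommGroup W] [Module K W]
    [FiniteDimensional K W] (m : ℕ) :
    (Fin m × Fin (finrank K W) → K) →ₗ[K] (Fin m → W) :=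
  LinearMap.pi fun i => (Fintype.linearCombination K (Module.finBasis K W)) ∘ₗ
    LinearMap.funLeft K K (fun k => (i, k))

/-- **The dimension theorem.** -/
theorem quad_dim (W : Submodule (QC Cc) Cc) [FiniteDimensional (QC Cc) W] (hW : W ≤ Lt) {m r : ℕ}
    (S : Matrix (Fin m) (Fin m) (QC Cc)) (hS : S.IsSymm) (hr : 2 * m ≤ 2 * r + S.rank + 4)
    (φ : Fin (r * finrank (QC Cc) W + m * (m - 1) + m * (m - 3) + 1) → ((Fin m → W) →ₗ[(QC Cc)] (QC Cc))) :
    ∃ P : MvPolynomial (Fin (r * finrank (QC Cc) W + m * (m - 1) + m * (m - 3) + 1)) (QC Cc), P ≠ 0 ∧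
      ∀ y : Fin m → W, ∑ i, ∑ j, (S i j : Cc) * (y i : Cc) * (y j : Cc) = 0 →
        ¬ InIso (QC Cc) S (fun i => (y i : Cc)) → MvPolynomial.eval (fun k => φ k y) P = 0 := by
  obtain ⟨P, h1, h2⟩ := quad_coord2 (bs W) (bs_li W) (fun j => hW (Module.finBasis (QC Cc) W j).2)
    S hS hr rfl (fun k => φ k ∘ₗ mkT m)
  refine ⟨P, h1, fun y hy hiso => ?_⟩
  have h3 : ∀ i, cmb (bs W) (fun k => (Module.finBasis (QC Cc) W).repr (y i) k) = (y i : Cc) :=
    fun i => cmb_bs' W (y i)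
  have h5 := h2 (fun i k => (Module.finBasis (QC Cc) W).repr (y i) k) (by
    simp only [h3]
    exact hy) (by
    obtain ⟨k, k', hk⟩ := not_iso (K := (QC Cc)) S (bs W)
      (fun i k => (Module.finBasis (QC Cc) W).repr (y i) k) (by
      have h6 : (fun i => ∑ k, algebraMap (QC Cc) Cc ((Module.finBasis (QC Cc) W).repr (y i) k) * bs W k) =
          fun i => (y i : Cc) := by
        funext i
        exact h3 i
      rw [h6]
      exact hiso)
    refine ⟨k, k', fun h7 => hk ?_⟩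
    have h8 := congrArg (fun z : (QC Cc) => (z : Cc)) h7
    push_cast at h8
    exact h8)
  have h7 : mkT m (fun p => (Module.finBasis (QC Cc) W).repr (y p.1) p.2) = y := by
    funext i
    exact (Module.finBasis (QC Cc) W).sum_repr (y i)
  simp only [LinearMap.comp_apply, h7] at h5
  exact h5

theorem box2_finite {m N : ℕ} (H : ℕ) (Q : (Fin m → Fin N → ℤ) → Prop) :
    {A : Fin m → Fin N → ℤ | (∀ i k, |A i k| ≤ H) ∧ Q A}.Finite := by
  refine (Finset.finite_toSet (Fintype.piFinset fun _ : Fin m => Fintype.piFinset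
    fun _ : Fin N => Finset.Icc (-(H : ℤ)) H)).subset fun A hA => ?_
  rw [Finset.mem_coe]
  simp only [Fintype.mem_piFinset, Finset.mem_Icc, ← abs_le]
  exact hA.1

/-- **Counting.** -/
theorem quad_count {m r N : ℕ} (S : Matrix (Fin m) (Fin m) (QC Cc)) (hS : S.IsSymm)
    (hr : 2 * m ≤ 2 * r + S.rank + 4) (l : Fin N → Cc)
    (hlL : ∀ j, l j ∈ Lt) (hli : LinearIndependent (QC Cc) (Fin.cons 1 l : Fin (N + 1) → Cc)) :
    ∃ κ : ℕ, ∀ H : ℕ, 1 ≤ H →
      Set.ncard {A : Fin m → Fin N → ℤ | (∀ i k, |A i k| ≤ H) ∧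
        ∑ i, ∑ j, (S i j : Cc) * (∑ k, (A i k : Cc) * l k) * (∑ k, (A j k : Cc) * l k) = 0 ∧
        ¬ InIso ℚ S (fun i => ∑ k, (A i k : Cc) * l k)} ≤
      κ * H ^ (r * N + m * (m - 1) + m * (m - 3)) := by
  classical
  have hl : LinearIndependent (QC Cc) l := by
    have h2 := hli
    have h3 := h2.comp Fin.succ (Fin.succ_injective N)
    have h4 : (Fin.cons 1 l : Fin (N + 1) → Cc) ∘ Fin.succ = l := by
      funext i
      rw [Function.comp_apply, Fin.cons_succ]
    rwa [h4] at h3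
  let T : Set (Fin m × Fin N → (QC Cc)) :=
    {x | ∑ i, ∑ j, (S i j : Cc) * cmb l (fun k => x (i, k)) * cmb l (fun k => x (j, k)) = 0 ∧
      ∃ k k', ∑ i, ∑ j, S i j * x (i, k) * x (j, k') ≠ 0}
  obtain ⟨κ, hκ⟩ := count_gen (d := r * N + m * (m - 1) + m * (m - 3)) T (by
    intro φ
    obtain ⟨P, h1, h2⟩ := quad_coord2 l hl (fun j => hlL j) S hS hr rfl φ
    refine ⟨P, h1, fun x hx => ?_⟩
    exact h2 (fun p k => x (p, k)) hx.1 hx.2)
  refine ⟨κ, fun H hH => ?_⟩
  set V := {A : Fin m → Fin N → ℤ | (∀ i k, |A i k| ≤ H) ∧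
        ∑ i, ∑ j, (S i j : Cc) * (∑ k, (A i k : Cc) * l k) * (∑ k, (A j k : Cc) * l k) = 0 ∧
        ¬ InIso ℚ S (fun i => ∑ k, (A i k : Cc) * l k)} with hV
  have hfin : V.Finite := box2_finite H _
  rw [Set.ncard_eq_toFinset_card V hfin]
  let g : (Fin m → Fin N → ℤ) → (Fin m × Fin N → ℤ) := fun A p => A p.1 p.2
  have hg : Function.Injective g := by
    intro A A' h
    funext i k
    exact congrFun h (i, k)
  rw [← Finset.card_image_of_injective _ hg]
  refine hκ H hH _ ?_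
  intro a ha
  obtain ⟨A, hA, rfl⟩ := Finset.mem_image.1 ha
  rw [Set.Finite.mem_toFinset] at hA
  obtain ⟨hA1, hA2, hA3⟩ := hA
  refine ⟨fun p => hA1 _ _, ?_⟩
  have h6 : ∀ i, cmb l (fun k => ((g A (i, k) : ℤ) : (QC Cc))) = ∑ k, (A i k : Cc) * l k := by
    intro i
    simp only [cmb, g]
    refine Finset.sum_congr rfl fun k _ => ?_
    rw [map_intCast]
  refine ⟨?_, ?_⟩
  · change ∑ i, ∑ j, (S i j : Cc) * cmb l (fun k => ((g A (i, k) : ℤ) : (QC Cc))) *
      cmb l (fun k => ((g A (j, k) : ℤ) : (QC Cc))) = 0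
    simp only [h6]
    exact hA2
  · obtain ⟨k, k', hk⟩ := not_iso (K := ℚ) S l (fun i k => ((A i k : ℤ) : ℚ)) (by
      have h7 : (fun i => ∑ k, algebraMap ℚ Cc ((A i k : ℤ) : ℚ) * l k) =
          fun i => ∑ k, (A i k : Cc) * l k := by
        funext i
        refine Finset.sum_congr rfl fun k _ => ?_
        rw [map_intCast]
      rw [h7]
      exact hA3)
    refine ⟨k, k', fun h8 => hk ?_⟩
    have h9 := congrArg (fun z : (QC Cc) => (z : Cc)) h8
    push_cast at h9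
    rw [← h9]
    refine Finset.sum_congr rfl fun i _ => Finset.sum_congr rfl fun j _ => ?_
    simp only [g, map_intCast]

end Pool.Agent.Y787.HS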