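import Pool.Agent.Y787.HS.Sys
import Pool.Agent.Y787.HS.Red2

/-!
# Tuples of logarithms with relations of bounded degree: coordinates
-/

set_option autoImplicit false

namespace Pool.Agent.Y787.HS
open Filter Module Pool.Agent.Y787.GL Pool.Agent.Y787.FE
open Pool.Agent.TH519.GL Pool.Agent.TH519.HS
open Pool.Agent.Y787 (QC mem_QC HypC hyperplane hyperplane' Lt_one baker')
open Pool.Agent.H297R2 (Ex card_Ex)

variable {Cc : Type} [Field Cc] [CharZero Cc] [IsAlgClosed Cc] [Uncountable Cc] {Lt : Submodule (QC Cc) Cc}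
  [HypC Lt]

theorem card_Ex' (n m D : ℕ) : Fintype.card (Ex (Fin n ⊕ Fin m) D) ≤ (D + (n + m)).choose (n + m) := by
  classical
  refine le_trans ?_ (card_Ex (n + m) D)
  refine Fintype.card_le_of_injective (fun s => ⟨s.1.equivMapDomain finSumFinEquiv, ?_⟩) ?_
  · refine le_trans (le_of_eq ?_) s.2
    rw [Finsupp.degree_eq_sum, Finsupp.degree_eq_sum]
    simp only [Finsupp.equivMapDomain_apply]
    exact Equiv.sum_comp finSumFinEquiv.symm s.1
  · intro s t h
    apply Subtype.ext
    have h1 := congrArg Subtype.val h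
    simp only at h1
    ext i
    have h2 := DFunLike.congr_fun h1 (finSumFinEquiv i)
    simpa using h2

/-- substitution of the first variables -/
noncomputable def Psi {n m : ℕ} (x : Fin n → Cc) :
    MvPolynomial (Fin n ⊕ Fin m) Cc →ₐ[Cc] MvPolynomial (Fin m) Cc :=
  MvPolynomial.aeval (Sum.elim (fun i => MvPolynomial.C (x i)) MvPolynomial.X)

theorem eval_Psi {n m : ℕ} (x : Fin n → Cc) (y : Fin m → Cc)
    (g : MvPolynomial (Fin n ⊕ Fin m) Cc) :
    MvPolynomial.eval y (Psi x g) = MvPolynomial.eval (Sum.elim x y) g := by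
  induction g using MvPolynomial.induction_on with
  | C a =>
    rw [Psi, MvPolynomial.algHom_C, MvPolynomial.eval_C]
    exact MvPolynomial.eval_C a
  | add p q hp hq => rw [map_add, map_add, hp, hq, map_add]
  | mul_X p i hp =>
    rw [map_mul, map_mul, hp, map_mul, MvPolynomial.eval_X, Psi, MvPolynomial.aeval_X]
    cases i with
    | inl i => rw [Sum.elim_inl, Sum.elim_inl, MvPolynomial.eval_C]
    | inr i => rw [Sum.elim_inr, Sum.elim_inr, MvPolynomial.eval_X]

theorem pderiv_Psi {n m : ℕ} (x : Fin n → Cc) (i : Fin m)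
    (g : MvPolynomial (Fin n ⊕ Fin m) Cc) :
    MvPolynomial.pderiv i (Psi x g) = Psi x (MvPolynomial.pderiv (Sum.inr i) g) := by
  classical
  induction g using MvPolynomial.induction_on with
  | C a =>
    rw [Psi, MvPolynomial.algHom_C, MvPolynomial.pderiv_C, map_zero]
    exact MvPolynomial.pderiv_C
  | add p q hp hq => rw [map_add, map_add, hp, hq, map_add, map_add]
  | mul_X p j hp =>
    rw [map_mul, MvPolynomial.pderiv_mul, hp, MvPolynomial.pderiv_mul, map_add, map_mul, map_mul]
    congr 1
    congr 1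
    rw [Psi, MvPolynomial.aeval_X]
    cases j with
    | inl j =>
      rw [Sum.elim_inl, MvPolynomial.pderiv_C, MvPolynomial.pderiv_X_of_ne (by simp), map_zero]
    | inr j =>
      rw [Sum.elim_inr, MvPolynomial.pderiv_X, MvPolynomial.pderiv_X, Pi.single_apply,
        Pi.single_apply]
      by_cases h : j = i
      · subst h
        rw [if_pos rfl, if_pos rfl, map_one]
      · rw [if_neg h, if_neg (fun h' => h (Sum.inr_injective h')), map_zero]

/-- The rational relations between the partial derivatives of a relation. -/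
noncomputable def RelF {n m : ℕ} (z : Fin n ⊕ Fin m → Cc) (f : MvPolynomial (Fin n ⊕ Fin m) (QC Cc)) :
    Submodule (QC Cc) (Fin m → (QC Cc)) :=
  Rel fun (_ : Fin 1) i => MvPolynomial.aeval z (MvPolynomial.pderiv (Sum.inr i) f)

theorem rel_dim {M n m D ρ : ℕ} (l' : Fin M → Cc) (hl : LinearIndependent (QC Cc) l')
    (hl' : ∀ j, l' j ∈ Lt) (x : Fin n → Cc)
    (φ : Fin (m * (m - 1) + ρ * M + (D + (n + m)).choose (n + m)) →
      ((Fin m × Fin M → (QC Cc)) →ₗ[(QC Cc)] (QC Cc))) :
    ∃ P : MvPolynomial (Fin (m * (m - 1) + ρ * M + (D + (n + m)).choose (n + m))) (QC Cc), P ≠ 0 ∧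
      ∀ (b : Fin m → Fin M → (QC Cc)) (f : MvPolynomial (Fin n ⊕ Fin m) (QC Cc)), f ≠ 0 →
        f.totalDegree ≤ D → MvPolynomial.aeval (Sum.elim x (yy l' b)) f = 0 →
        finrank (QC Cc) (RelF (Sum.elim x (yy l' b)) f) ≤ ρ →
        MvPolynomial.eval (fun k => φ k (fun q => b q.1 q.2)) P = 0 := by
  classical
  have h0 : Nonempty (Ex (Fin n ⊕ Fin m) D) := ⟨⟨0, by simp⟩⟩
  obtain ⟨r, hr⟩ : ∃ r, Fintype.card (Ex (Fin n ⊕ Fin m) D) = r + 1 :=
    ⟨Fintype.card (Ex (Fin n ⊕ Fin m) D) - 1, by
      have := Fintype.card_pos (α := Ex (Fin n ⊕ Fin m) D)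
      omega⟩
  have hle : r + 1 ≤ (D + (n + m)).choose (n + m) := by
    rw [← hr]
    exact card_Ex' n m D
  let ε : Fin (r + 1) ≃ Ex (Fin n ⊕ Fin m) D := (Fintype.equivFinOfCardEq hr).symm
  let F : Fin (r + 1) → MvPolynomial (Fin m) Cc := fun j =>
    Psi x (MvPolynomial.monomial (ε j).1 (1 : Cc))
  have hn : m * (m - 1) + ρ * M + r + 1 ≤
      m * (m - 1) + ρ * M + (D + (n + m)).choose (n + m) := by omega
  obtain ⟨P, hP1, hP2⟩ := lin_sys (ρ := ρ) l' hl hl' F (id : Fin m → Fin m)
    (fun k => φ (Fin.castLE hn k))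
  refine ⟨MvPolynomial.rename (Fin.castLE hn) P, ?_, ?_⟩
  · intro h
    apply hP1
    apply MvPolynomial.rename_injective _ (Fin.castLE_injective hn)
    rw [h, map_zero]
  · intro b f hf0 hfD hf hrk
    rw [MvPolynomial.eval_rename]
    set c : Fin (r + 1) → (QC Cc) := fun j => MvPolynomial.coeff (ε j).1 f with hc
    have hsum : f = ∑ j, MvPolynomial.C (c j) * MvPolynomial.monomial (ε j).1 (1 : (QC Cc)) := by
      have h1 : f = ∑ s : Ex (Fin n ⊕ Fin m) D,
          MvPolynomial.C (MvPolynomial.coeff s.1 f) * MvPolynomial.monomial s.1 (1 : (QC Cc)) := by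
        refine MvPolynomial.ext _ _ fun s => ?_
        rw [MvPolynomial.coeff_sum]
        simp only [MvPolynomial.coeff_C_mul, MvPolynomial.coeff_monomial, mul_ite, mul_one,
          mul_zero]
        by_cases hs : s.degree ≤ D
        · rw [Finset.sum_eq_single (⟨s, hs⟩ : Ex (Fin n ⊕ Fin m) D)]
          · rw [if_pos rfl]
          · intro t _ ht
            rw [if_neg]
            intro h
            exact ht (Subtype.ext h)
          · intro h; exact absurd (Finset.mem_univ _) h
        · rw [Finset.sum_eq_zero]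
          · by_contra h
            apply hs
            have h2 := MvPolynomial.le_totalDegree (MvPolynomial.mem_support_iff.2 h)
            exact h2.trans hfD
          · intro t _
            rw [if_neg]
            rintro rfl
            exact hs t.2
      conv_lhs => rw [h1]
      exact (Equiv.sum_comp ε (fun s : Ex (Fin n ⊕ Fin m) D =>
        MvPolynomial.C (MvPolynomial.coeff s.1 f) * MvPolynomial.monomial s.1 (1 : (QC Cc)))).symm
    have hmap : MvPolynomial.map (algebraMap (QC Cc) Cc) f =
        ∑ j, MvPolynomial.C (c j : Cc) * MvPolynomial.monomial (ε j).1 (1 : Cc) := by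
      conv_lhs => rw [hsum]
      rw [map_sum]
      refine Finset.sum_congr rfl fun j _ => ?_
      rw [map_mul, MvPolynomial.map_C, MvPolynomial.map_monomial, map_one]
      rfl
    have hc0 : c ≠ 0 := by
      intro h
      apply hf0
      rw [hsum, h]
      simp
    refine hP2 b c hc0 ?_ ?_
    · rw [← hf, ← eval_map_K, hmap, map_sum]
      refine Finset.sum_congr rfl fun j _ => ?_
      rw [map_mul, MvPolynomial.eval_C]
      congr 1
      exact eval_Psi x _ _
    · have h1 : (Rel fun (_ : Fin 1) i => ∑ j, (c j : Cc) *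
          MvPolynomial.eval (yy l' b) (MvPolynomial.pderiv i (F j))) =
          RelF (Sum.elim x (yy l' b)) f := by
        rw [RelF]
        congr 1
        funext _ i
        rw [← eval_map_K, ← MvPolynomial.pderiv_map, hmap, map_sum, map_sum]
        refine Finset.sum_congr rfl fun j _ => ?_
        rw [MvPolynomial.pderiv_C_mul, map_mul, MvPolynomial.eval_C]
        congr 1
        change MvPolynomial.eval _ (MvPolynomial.pderiv i (Psi x _)) = _
        rw [pderiv_Psi, eval_Psi]
      rw [h1]
      have h2 : LinearMap.funLeft (QC Cc) (QC Cc) (id : Fin m → Fin m) = LinearMap.id := rfl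
      rw [h2, Submodule.map_id]
      exact hrk

end Pool.Agent.Y787.HS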