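import Mathlib

/-!
# Ranks of products of kernel vectors
-/

set_option autoImplicit false

namespace Pool.Agent.Y787.HS
open Module

variable {Cc : Type} [Field Cc] [CharZero Cc]

variable {K : Type} [Field K] [Algebra K Cc]

omit [Algebra K Cc] in
theorem ker_add_card {σ κ V : Type} [Fintype σ] [Fintype κ] [AddCommGroup V] [Module K V]
    (Θ : (σ → K) →ₗ[K] V) (w : κ → V) (hw : LinearIndependent K w)
    (hmem : ∀ k, w k ∈ LinearMap.range Θ) :
    finrank K (LinearMap.ker Θ) + Fintype.card κ ≤ Fintype.card σ := by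
  have h1 := LinearMap.finrank_range_add_finrank_ker Θ
  rw [Module.finrank_fintype_fun_eq_card] at h1
  have h2 : LinearIndependent K (fun k => (⟨w k, hmem k⟩ : LinearMap.range Θ)) := by
    apply LinearIndependent.of_comp (LinearMap.range Θ).subtype
    exact hw
  have h3 := h2.fintype_card_le_finrank
  omega

/-- the pairing of matrices over `K` with complex products -/
noncomputable def Th {n s : ℕ} (c : Fin n → Cc) (X : Fin s → Fin n → Cc) :
    (Fin n × Fin n → K) →ₗ[K] (Fin s → Cc) :=
  Fintype.linearCombination K (fun (p : Fin n × Fin n) t => c p.1 * X t p.2)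

theorem Th_apply {n s : ℕ} (c : Fin n → Cc) (X : Fin s → Fin n → Cc) (V : Fin n × Fin n → K)
    (t : Fin s) : Th c X V t = ∑ p, algebraMap K Cc (V p) * (c p.1 * X t p.2) := by
  rw [Th, Fintype.linearCombination_apply, Finset.sum_apply]
  refine Finset.sum_congr rfl fun p _ => ?_
  rw [Pi.smul_apply, Algebra.smul_def]

theorem Th_single {n s : ℕ} (c : Fin n → Cc) (X : Fin s → Fin n → Cc) (w : Fin n → K)
    (j : Fin n) : (fun t => (∑ i, algebraMap K Cc (w i) * c i) * X t j) ∈
      LinearMap.range (Th (K := K) c X) := by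
  classical
  refine ⟨fun p => if p.2 = j then w p.1 else 0, ?_⟩
  funext t
  rw [Th_apply, Fintype.sum_prod_type, Finset.sum_mul]
  refine Finset.sum_congr rfl fun i _ => ?_
  rw [Finset.sum_eq_single j]
  · rw [if_pos rfl, mul_assoc]
  · intro j' _ hj'
    rw [if_neg hj', map_zero, zero_mul]
  · intro h; exact absurd (Finset.mem_univ j) h

variable (K) in
theorem basis_c {n : ℕ} (c : Fin n → Cc) : ∃ (a : ℕ) (ξ : Fin a → Cc) (R : Fin n → Fin a → K)
    (w : Fin a → Fin n → K), LinearIndependent K ξ ∧ a ≤ n ∧
      (∀ i, c i = ∑ α, algebraMap K Cc (R i α) * ξ α) ∧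
      (∀ α, ξ α = ∑ i, algebraMap K Cc (w α i) * c i) ∧
      (a = n → LinearIndependent K c) := by
  classical
  set C : Submodule K Cc := Submodule.span K (Set.range c) with hC
  have hfd : FiniteDimensional K C := FiniteDimensional.span_of_finite K (Set.finite_range c)
  let B := Module.finBasis K C
  have hmem : ∀ i, c i ∈ C := fun i => Submodule.subset_span ⟨i, rfl⟩
  have hw : ∀ α, ∃ w : Fin n → K, ∑ i, w i • c i = (B α : Cc) := fun α =>
    (Submodule.mem_span_range_iff_exists_fun K).1 (B α).2
  choose w hw using hw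
  refine ⟨finrank K C, fun α => (B α : Cc), fun i α => B.repr ⟨c i, hmem i⟩ α, w,
    B.linearIndependent.map' C.subtype (Submodule.ker_subtype _), ?_, ?_, ?_, ?_⟩
  · have := finrank_range_le_card (R := K) c
    rwa [Fintype.card_fin] at this
  · intro i
    have h1 := congrArg (fun y : C => (y : Cc)) (B.sum_repr ⟨c i, hmem i⟩)
    simp only [Submodule.coe_sum, Submodule.coe_smul] at h1
    rw [← h1]
    refine Finset.sum_congr rfl fun t _ => ?_
    rw [Algebra.smul_def]
  · intro α
    change (B α : Cc) = _
    rw [← hw α]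
    refine Finset.sum_congr rfl fun t _ => ?_
    rw [Algebra.smul_def]
  · intro ha
    rw [linearIndependent_iff_card_eq_finrank_span, Fintype.card_fin]
    exact ha.symm

theorem ker_X {n a : ℕ} (A : Fin a → Fin n → Cc) (ξ : Fin a → Cc) (hξ : ξ ≠ 0) (ha : a ≤ n)
    (hA : ∀ j, ∑ α, ξ α * A α j = 0) :
    ∃ X : Fin (n - a + 1) → Fin n → Cc, LinearIndependent Cc X ∧
      ∀ t α, ∑ j, A α j * X t j = 0 := by
  classical
  let L : (Fin n → Cc) →ₗ[Cc] (Fin a → Cc) := Matrix.mulVecLin (Matrix.of A)
  let f : (Fin a → Cc) →ₗ[Cc] Cc := Fintype.linearCombination Cc ξ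
  have hf : ∀ ζ, f ζ = ∑ α, ζ α * ξ α := fun ζ => Fintype.linearCombination_apply Cc ξ ζ
  have hf0 : f ≠ 0 := by
    intro h
    apply hξ
    funext α
    have := congrArg (fun f => f (Pi.single α 1)) h
    simp only [hf, LinearMap.zero_apply] at this
    rw [Finset.sum_eq_single α] at this
    · rwa [Pi.single_eq_same, one_mul] at this
    · intro β _ hβ
      rw [Pi.single_eq_of_ne hβ, zero_mul]
    · intro h; exact absurd (Finset.mem_univ α) h
  have h1 := Module.Dual.finrank_ker_add_one_of_ne_zero (f := f) hf0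
  rw [Module.finrank_fintype_fun_eq_card, Fintype.card_fin] at h1
  have h2 : LinearMap.range L ≤ LinearMap.ker f := by
    rintro _ ⟨x, rfl⟩
    rw [LinearMap.mem_ker, hf]
    have h3 : ∀ α, L x α = ∑ j, A α j * x j := fun α => rfl
    simp only [h3, Finset.sum_mul]
    rw [Finset.sum_comm]
    refine Finset.sum_eq_zero fun j _ => ?_
    have h4 : ∑ α, A α j * x j * ξ α = (∑ α, ξ α * A α j) * x j := by
      rw [Finset.sum_mul]
      refine Finset.sum_congr rfl fun α _ => ?_
      ring
    rw [h4, hA, zero_mul]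
  have h3 := Submodule.finrank_mono h2
  have h4 := LinearMap.finrank_range_add_finrank_ker L
  rw [Module.finrank_fintype_fun_eq_card, Fintype.card_fin] at h4
  have h5 : n - a + 1 ≤ finrank Cc (LinearMap.ker L) := by omega
  let B := Module.finBasis Cc (LinearMap.ker L)
  refine ⟨fun t => (B (Fin.castLE h5 t) : Fin n → Cc), ?_, ?_⟩
  · have h6 := B.linearIndependent.map' (LinearMap.ker L).subtype (Submodule.ker_subtype _)
    exact h6.comp _ (Fin.castLE_injective h5)
  · intro t α
    have h6 : L (B (Fin.castLE h5 t) : Fin n → Cc) = 0 :=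
      LinearMap.mem_ker.1 (B (Fin.castLE h5 t)).2
    exact congrFun h6 α

theorem rank_A {n a s : ℕ} (c : Fin n → Cc) (ξ : Fin a → Cc) (w : Fin a → Fin n → K)
    (hξ : LinearIndependent K ξ) (hw : ∀ α, ξ α = ∑ i, algebraMap K Cc (w α i) * c i)
    (X : Fin s → Fin n → Cc) (hX : LinearIndependent Cc X) :
    finrank K (LinearMap.ker (Th (K := K) c X)) + a * s ≤ n * n := by
  classical
  let v : Fin n → (Fin s → Cc) := fun j t => X t j
  obtain ⟨κ, ι₀, hinj, hspan, hli⟩ := exists_linearIndependent' Cc v
  have hfin : Finite κ := Finite.of_injective ι₀ hinj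
  have _ : Fintype κ := Fintype.ofFinite κ
  have hcard : Fintype.card κ = s := by
    have h1 := finrank_span_eq_card hli
    rw [hspan] at h1
    have h2 : (Matrix.of X).rank = s := by
      have := LinearIndependent.rank_matrix (M := Matrix.of X) hX
      rwa [Fintype.card_fin] at this
    rw [Matrix.rank_eq_finrank_span_cols] at h2
    rw [← h1]
    exact h2
  have h3 : LinearIndependent K fun p : Fin a × κ => ξ p.1 • (v ∘ ι₀) p.2 :=
    linearIndependent_smul hξ hli
  have h4 := ker_add_card (Th (K := K) c X) _ h3 (by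
    rintro ⟨α, k⟩
    have h5 := Th_single (K := K) c X (w α) (ι₀ k)
    rw [← hw α] at h5
    exact h5)
  rw [Fintype.card_prod, Fintype.card_prod, Fintype.card_fin, Fintype.card_fin, hcard] at h4
  exact h4

theorem rank_B {n : ℕ} (hK : ∀ z : Cc, IsIntegral K z → ∃ κ : K, algebraMap K Cc κ = z)
    (c d : Fin n → Cc) (hc : LinearIndependent K c)
    (hd : d ≠ 0) (hd' : ∀ (z : Cc) (v : Fin n → K), (∀ j, d j = z * algebraMap K Cc (v j)) → d = 0) :
    finrank K (LinearMap.ker (Th (K := K) c (fun (_ : Fin 1) => d))) + (n + 1) ≤ n * n := by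
  classical
  obtain ⟨j₀, hj₀⟩ : ∃ j, d j ≠ 0 := by
    by_contra h
    push Not at h
    exact hd (funext h)
  obtain ⟨j₁, hj₁⟩ : ∃ j, ∀ κ : K, d j ≠ d j₀ * algebraMap K Cc κ := by
    by_contra h
    push Not at h
    choose v hv using h
    exact hd (hd' (d j₀) v hv)
  set C : Submodule K Cc := Submodule.span K (Set.range c) with hC
  -- some product is new
  obtain ⟨i₁, hi₁⟩ : ∃ i, c i * (d j₁ / d j₀) ∉ C := by
    by_contra h
    push Not at h
    have h1 : ∀ x ∈ C, (d j₁ / d j₀) • x ∈ C := by
      intro x hx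
      rw [hC] at hx
      induction hx using Submodule.span_induction with
      | mem x hx =>
        obtain ⟨i, rfl⟩ := hx
        rw [smul_eq_mul, mul_comm]
        exact h i
      | zero => rw [smul_zero]; exact C.zero_mem
      | add x y _ _ hx hy => rw [smul_add]; exact C.add_mem hx hy
      | smul k x _ hx =>
        rw [smul_comm]
        exact C.smul_mem k hx
    have hC0 : C ≠ ⊥ := by
      intro hbot
      have h2 : c j₀ ∈ C := Submodule.subset_span ⟨j₀, rfl⟩
      rw [hbot, Submodule.mem_bot] at h2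
      exact hc.ne_zero j₀ h2
    have hfg : C.FG := Submodule.fg_span (Set.finite_range c)
    have h2 := isIntegral_of_smul_mem_submodule (R := K) (A := Cc) (M := Cc) C hC0 hfg
      (d j₁ / d j₀) h1
    obtain ⟨κ, hκ⟩ := hK _ h2
    apply hj₁ κ
    rw [hκ]
    field_simp
  set w : Fin (n + 1) → (Fin 1 → Cc) :=
    Fin.cons (fun _ => c i₁ * d j₁) (fun i _ => c i * d j₀) with hw
  have hwli : LinearIndependent K w := by
    rw [hw, linearIndependent_finCons]
    constructor
    · have h1 : LinearIndependent K (fun i => c i * d j₀) := by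
        rw [Fintype.linearIndependent_iff] at hc ⊢
        intro g hg
        apply hc g
        have h2 : (∑ i, g i • c i) * d j₀ = 0 := by
          rw [Finset.sum_mul, ← hg]
          refine Finset.sum_congr rfl fun i _ => ?_
          rw [smul_mul_assoc]
        exact (mul_eq_zero.1 h2).resolve_right hj₀
      rw [Fintype.linearIndependent_iff] at h1 ⊢
      intro g hg
      apply h1 g
      have h2 := congrFun hg 0
      rw [Finset.sum_apply] at h2
      exact h2
    · intro hmem
      obtain ⟨g, hg⟩ := (Submodule.mem_span_range_iff_exists_fun K).1 hmem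
      have h2 := congrFun hg 0
      rw [Finset.sum_apply] at h2
      simp only [Pi.smul_apply] at h2
      apply hi₁
      have h3 : c i₁ * (d j₁ / d j₀) = ∑ i, g i • c i := by
        rw [← mul_div_assoc, ← h2, Finset.sum_div]
        refine Finset.sum_congr rfl fun i _ => ?_
        rw [← smul_mul_assoc, mul_div_assoc, div_self hj₀, mul_one]
      rw [h3]
      exact Submodule.sum_mem _ fun i _ => C.smul_mem _ (Submodule.subset_span ⟨i, rfl⟩)
  have hsingle : ∀ i j, (fun _ : Fin 1 => c i * d j) ∈
      LinearMap.range (Th (K := K) c (fun (_ : Fin 1) => d)) := by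
    intro i j
    have h1 := Th_single (K := K) c (fun (_ : Fin 1) => d) (Pi.single i 1) j
    have h2 : ∑ i', algebraMap K Cc ((Pi.single i 1 : Fin n → K) i') * c i' = c i := by
      rw [Finset.sum_eq_single i]
      · rw [Pi.single_eq_same, map_one, one_mul]
      · intro i' _ hi'
        rw [Pi.single_eq_of_ne hi', map_zero, zero_mul]
      · intro h; exact absurd (Finset.mem_univ i) h
    rw [h2] at h1
    exact h1
  have h4 := ker_add_card (Th (K := K) c (fun (_ : Fin 1) => d)) w hwli (by
    intro k
    refine Fin.cases ?_ (fun i => ?_) k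
    · rw [hw, Fin.cons_zero]
      exact hsingle i₁ j₁
    · rw [hw, Fin.cons_succ]
      exact hsingle i j₀)
  rw [Fintype.card_prod, Fintype.card_fin, Fintype.card_fin] at h4
  exact h4

end Pool.Agent.Y787.HS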