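import Pool.Agent.Y787.HS.Log2
import Pool.Agent.Y787.HS.SgF

/-!
# Relations of minimal degree: reduction to several linear combinations
-/

set_option autoImplicit false

namespace Pool.Agent.Y787.HS

open MvPolynomial

section alg

variable {Cc : Type} [Field Cc] [CharZero Cc]

variable {K : Type} [Field K] [Algebra K Cc]

/-- a subspace of codimension at most `s` contains the common kernel of `s` independent linear
forms -/
theorem exists_forms {m s : ℕ} (hs : s ≤ m) (V : Submodule K (Fin m → K))
    (hV : m ≤ Module.finrank K V + s) :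
    ∃ u w : Fin s → Fin m → K, LinearIndependent K u ∧
      (∀ j j', ∑ i, u j i * w j' i = if j = j' then 1 else 0) ∧
      ∀ v : Fin m → K, (∀ j, ∑ i, u j i * v i = 0) → v ∈ V := by
  classical
  let b := Module.finBasis K V
  have hd : m - s ≤ Module.finrank K V := by omega
  set V' : Submodule K (Fin m → K) :=
    Submodule.span K (Set.range fun i : Fin (m - s) => ((b (Fin.castLE hd i) : V) : Fin m → K))
    with hV'
  have hli : LinearIndependent K
      (fun i : Fin (m - s) => ((b (Fin.castLE hd i) : V) : Fin m → K)) := by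
    have h1 : LinearIndependent K fun i => ((b i : V) : Fin m → K) :=
      b.linearIndependent.map' V.subtype V.ker_subtype
    exact h1.comp _ (Fin.castLE_injective hd)
  have hV'r : Module.finrank K V' = m - s := by
    rw [hV', finrank_span_eq_card hli, Fintype.card_fin]
  have hle : V' ≤ V := by
    rw [hV', Submodule.span_le]
    rintro _ ⟨i, rfl⟩
    exact (b _).2
  have hq := Submodule.finrank_quotient_add_finrank V'
  rw [Module.finrank_fintype_fun_eq_card, Fintype.card_fin, hV'r] at hq
  have hq' : Module.finrank K ((Fin m → K) ⧸ V') = s := by omega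
  let e : ((Fin m → K) ⧸ V') ≃ₗ[K] (Fin s → K) :=
    LinearEquiv.ofFinrankEq _ _ (by rw [hq', Module.finrank_fintype_fun_eq_card, Fintype.card_fin])
  let π : (Fin m → K) →ₗ[K] (Fin s → K) := e.toLinearMap.comp V'.mkQ
  have hπs : Function.Surjective π := e.surjective.comp (Submodule.mkQ_surjective V')
  have hπ : ∀ v j, π v j = ∑ i, π (Pi.single i 1) j * v i := by
    intro v j
    have h3 : v = ∑ i, v i • (Pi.single i 1 : Fin m → K) := by
      funext j
      rw [Finset.sum_apply, Finset.sum_eq_single j]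
      · rw [Pi.smul_apply, Pi.single_eq_same, smul_eq_mul, mul_one]
      · intro i _ hi
        rw [Pi.smul_apply, Pi.single_eq_of_ne (Ne.symm hi), smul_zero]
      · intro h; exact absurd (Finset.mem_univ j) h
    conv_lhs => rw [h3, map_sum, Finset.sum_apply]
    refine Finset.sum_congr rfl fun i _ => ?_
    rw [map_smul, Pi.smul_apply, smul_eq_mul, mul_comm]
  choose w hw using fun j : Fin s => hπs (Pi.single j 1)
  have huw : ∀ j j', ∑ i, π (Pi.single i 1) j * w j' i = if j = j' then 1 else 0 := by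
    intro j j'
    rw [← hπ, hw, Pi.single_apply]
  refine ⟨fun j i => π (Pi.single i 1) j, w, ?_, huw, fun v hv => hle ?_⟩
  · rw [Fintype.linearIndependent_iff]
    intro g hg j
    have h1 : ∑ j', g j' * ∑ i, π (Pi.single i 1) j' * w j i = 0 := by
      have h2 : ∀ i, ∑ j', g j' * π (Pi.single i 1) j' = 0 := by
        intro i
        have := congrFun hg i
        rw [Finset.sum_apply] at this
        simpa only [Pi.smul_apply, smul_eq_mul, Pi.zero_apply] using this
      simp only [Finset.mul_sum]
      rw [Finset.sum_comm]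
      refine Finset.sum_eq_zero fun i _ => ?_
      have h3 : ∑ j', g j' * (π (Pi.single i 1) j' * w j i) =
          (∑ j', g j' * π (Pi.single i 1) j') * w j i := by
        rw [Finset.sum_mul]
        refine Finset.sum_congr rfl fun j' _ => ?_
        ring
      rw [h3, h2, zero_mul]
    simp only [huw] at h1
    rw [Finset.sum_eq_single j] at h1
    · rwa [if_pos rfl, mul_one] at h1
    · intro j' _ hj'
      rw [if_neg hj', mul_zero]
    · intro h; exact absurd (Finset.mem_univ j) h
  · have h1 : π v = 0 := by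
      funext j
      rw [hπ]
      exact hv j
    have h2 : V'.mkQ v = 0 := by
      apply e.injective
      rw [map_zero]
      exact h1
    rwa [Submodule.mkQ_apply, Submodule.Quotient.mk_eq_zero] at h2

theorem red_inv' {n m s : ℕ} (f : MvPolynomial (Fin n ⊕ Fin m) K) (u w : Fin s → Fin m → K)
    (hkey : ∀ i, ∑ k, C ((Pi.single i 1 : Fin m → K) k - ∑ j, u j i * w j k) *
      pderiv (Sum.inr k : Fin n ⊕ Fin m) f = 0)
    (x' : Fin n → Cc) (y' : Fin m → Cc) : aeval (Sum.elim x' y') f =
      aeval (Sum.elim x' fun i => ∑ j, (∑ k, algebraMap K Cc (u j k) * y' k) *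
        algebraMap K Cc (w j i)) f := by
  classical
  rw [← eval_map_K, ← eval_map_K]
  set T : Fin s → Cc := fun j => ∑ k, algebraMap K Cc (u j k) * y' k with hT
  have h1 := line_const (map (algebraMap K Cc) f)
    (Sum.elim x' fun i => ∑ j, T j * algebraMap K Cc (w j i))
    (Sum.elim (fun _ => 0) fun i => y' i - ∑ j, T j * algebraMap K Cc (w j i)) (by
    intro t
    rw [Fintype.sum_sum_type]
    simp only [Sum.elim_inl, Sum.elim_inr, zero_mul, Finset.sum_const_zero, zero_add]
    set Z := (Sum.elim x' fun i => ∑ j, T j * algebraMap K Cc (w j i)) with hZ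
    set z' : Fin n ⊕ Fin m → Cc := fun i => Z i + t * (Sum.elim (fun _ => 0)
      (fun i => y' i - ∑ j, T j * algebraMap K Cc (w j i)) i) with hz'
    have h2 : ∀ k, y' k - ∑ j, T j * algebraMap K Cc (w j k) =
        ∑ i, y' i * algebraMap K Cc ((Pi.single i 1 : Fin m → K) k - ∑ j, u j i * w j k) := by
      intro k
      simp only [map_sub, mul_sub, Finset.sum_sub_distrib]
      congr 1
      · rw [Finset.sum_eq_single k]
        · rw [Pi.single_eq_same, map_one, mul_one]
        · intro i _ hi
          rw [Pi.single_eq_of_ne (Ne.symm hi), map_zero, mul_zero]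
        · intro h; exact absurd (Finset.mem_univ k) h
      · simp only [hT, map_sum, map_mul, Finset.mul_sum, Finset.sum_mul]
        rw [Finset.sum_comm]
        refine Finset.sum_congr rfl fun i _ => Finset.sum_congr rfl fun j _ => ?_
        ring
    have h3 : ∀ i, ∑ k, algebraMap K Cc ((Pi.single i 1 : Fin m → K) k - ∑ j, u j i * w j k) *
        eval z' (pderiv (Sum.inr k) (map (algebraMap K Cc) f)) = 0 := by
      intro i
      have h4 := congrArg (fun g => eval z' (map (algebraMap K Cc) g)) (hkey i)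
      simp only [map_sum, map_mul, map_zero, map_C, eval_C] at h4
      rw [← h4]
      refine Finset.sum_congr rfl fun k _ => ?_
      rw [pderiv_map]
    have h5 : ∑ k, (y' k - ∑ j, T j * algebraMap K Cc (w j k)) *
        eval z' (pderiv (Sum.inr k) (map (algebraMap K Cc) f)) =
        ∑ i, y' i * ∑ k, algebraMap K Cc ((Pi.single i 1 : Fin m → K) k - ∑ j, u j i * w j k) *
          eval z' (pderiv (Sum.inr k) (map (algebraMap K Cc) f)) := by
      simp only [h2, Finset.sum_mul, Finset.mul_sum]
      rw [Finset.sum_comm]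
      refine Finset.sum_congr rfl fun i _ => Finset.sum_congr rfl fun k _ => ?_
      ring
    refine Eq.trans h5 (Finset.sum_eq_zero fun i _ => ?_)
    rw [h3, mul_zero])
  rw [← h1]
  congr 2
  funext i
  cases i with
  | inl i => simp only [Sum.elim_inl, add_zero]
  | inr i => simp only [Sum.elim_inr]; ring

theorem red_many {n m s D : ℕ} (x : Fin n → Cc) (y : Fin m → Cc)
    (f : MvPolynomial (Fin n ⊕ Fin m) K) (hf0 : f ≠ 0) (hfD : f.totalDegree ≤ D)
    (hf : aeval (Sum.elim x y) f = 0) (u w : Fin s → Fin m → K)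
    (hinv : ∀ (x' : Fin n → Cc) (y' : Fin m → Cc), aeval (Sum.elim x' y') f =
      aeval (Sum.elim x' fun i => ∑ j, (∑ k, algebraMap K Cc (u j k) * y' k) *
        algebraMap K Cc (w j i)) f) :
    RlK K D (Sum.elim x (fun j : Fin s => ∑ i, algebraMap K Cc (u j i) * y i)) := by
  classical
  have hcomp : ∀ (x' : Fin n → Cc) (T : Fin s → Cc), aeval (Sum.elim x' T)
      (aeval (Sum.elim (fun i => X (Sum.inl i)) fun i => ∑ j, X (Sum.inr j) * C (w j i) :
      Fin n ⊕ Fin m → MvPolynomial (Fin n ⊕ Fin s) K) f) =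
      aeval (Sum.elim x' fun i => ∑ j, T j * algebraMap K Cc (w j i)) f := by
    intro x' T
    rw [← AlgHom.comp_apply, comp_aeval]
    congr 2
    funext i
    cases i with
    | inl i => simp only [Sum.elim_inl, aeval_X]
    | inr i => simp only [Sum.elim_inr, map_sum, map_mul, aeval_X, algHom_C]
  refine ⟨aeval (Sum.elim (fun i => X (Sum.inl i)) fun i => ∑ j, X (Sum.inr j) * C (w j i)) f,
    ?_, ?_, ?_⟩
  · intro h0
    apply hf0
    apply map_injective (algebraMap K Cc) (algebraMap K Cc).injective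
    rw [map_zero]
    apply MvPolynomial.funext
    intro z
    have h1 : z = Sum.elim (z ∘ Sum.inl) (z ∘ Sum.inr) := by
      funext i
      cases i <;> rfl
    rw [h1, eval_map_K, hinv, map_zero, ← hcomp, h0, map_zero]
  · refine (Pool.Agent.H297R2.totalDegree_subst_le _ (fun i => ?_) f).trans hfD
    cases i with
    | inl i =>
      simp only [Sum.elim_inl]
      exact (totalDegree_X _).le
    | inr i =>
      simp only [Sum.elim_inr]
      refine totalDegree_finsetSum_le fun j _ => ?_
      refine (totalDegree_mul _ _).trans ?_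
      rw [totalDegree_C, add_zero]
      exact (totalDegree_X _).le
  · rw [hcomp, ← hinv x y, hf]

end alg

open Filter Module Pool.Agent.Y787.GL Pool.Agent.Y787.FE
open Pool.Agent.TH519.GL Pool.Agent.TH519.HS
open Pool.Agent.Y787 (QC mem_QC HypC hyperplane hyperplane' Lt_one baker')

variable {Cc : Type} [Field Cc] [CharZero Cc] [IsAlgClosed Cc] [Uncountable Cc] {Lt : Submodule (QC Cc) Cc}
  [HypC Lt]

/-- `(x, y)` satisfies a relation of degree at most `D`, but `x` together with `s` independent
linear combinations of the `y i` never does -/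
def Strat {n m : ℕ} (D s : ℕ) (x : Fin n → Cc) (y : Fin m → Cc) : Prop :=
  RlK (QC Cc) D (Sum.elim x y) ∧ ∀ u : Fin s → Fin m → (QC Cc), LinearIndependent (QC Cc) u →
    ¬ RlK (QC Cc) D (Sum.elim x fun j => ∑ i, (u j i : Cc) * y i)

theorem rank_many {n m s D : ℕ} (hs : s < m) (x : Fin n → Cc) (y : Fin m → Cc)
    (hy : ∀ u : Fin s → Fin m → (QC Cc), LinearIndependent (QC Cc) u →
      ¬ RlK (QC Cc) D (Sum.elim x fun j => ∑ i, (u j i : Cc) * y i))
    (f : MvPolynomial (Fin n ⊕ Fin m) (QC Cc)) (hf0 : f ≠ 0) (hfD : f.totalDegree ≤ D)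
    (hf : MvPolynomial.aeval (Sum.elim x y) f = 0)
    (hmin : ∀ g : MvPolynomial (Fin n ⊕ Fin m) (QC Cc), g ≠ 0 →
      MvPolynomial.aeval (Sum.elim x y) g = 0 → f.totalDegree ≤ g.totalDegree) :
    finrank (QC Cc) (RelF (Sum.elim x y) f) ≤ m - 1 - s := by
  classical
  by_contra hcon
  obtain ⟨u, w, hu, huw, hker⟩ := exists_forms hs.le (RelF (Sum.elim x y) f) (by omega)
  have hkey : ∀ i, ∑ k, C ((Pi.single i 1 : Fin m → (QC Cc)) k - ∑ j, u j i * w j k) *
      pderiv (Sum.inr k : Fin n ⊕ Fin m) f = 0 := by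
    intro i
    set v : Fin m → (QC Cc) :=
      fun k => (Pi.single i 1 : Fin m → (QC Cc)) k - ∑ j, u j i * w j k with hv
    have h1 : v ∈ RelF (Sum.elim x y) f := by
      apply hker
      intro j
      simp only [hv, mul_sub, Finset.sum_sub_distrib]
      have h2 : ∑ k, u j k * (Pi.single i 1 : Fin m → (QC Cc)) k = u j i := by
        rw [Finset.sum_eq_single i]
        · rw [Pi.single_eq_same, mul_one]
        · intro k _ hk
          rw [Pi.single_eq_of_ne hk, mul_zero]
        · intro h; exact absurd (Finset.mem_univ i) h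
      have h3 : ∑ k, u j k * ∑ j', u j' i * w j' k = u j i := by
        have h4 : ∑ k, u j k * ∑ j', u j' i * w j' k = ∑ j', u j' i * ∑ k, u j k * w j' k := by
          simp only [Finset.mul_sum]
          rw [Finset.sum_comm]
          refine Finset.sum_congr rfl fun j' _ => Finset.sum_congr rfl fun k _ => ?_
          ring
        rw [h4]
        simp only [huw]
        rw [Finset.sum_eq_single j]
        · rw [if_pos rfl, mul_one]
        · intro j' _ hj'
          rw [if_neg (Ne.symm hj'), mul_zero]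
        · intro h; exact absurd (Finset.mem_univ j) h
      rw [h2, h3, sub_self]
    have h2 := h1 0
    by_contra h0
    set v' : Fin n ⊕ Fin m → (QC Cc) := Sum.elim (fun _ => 0) v with hv'
    have hGv : ∑ k, C (v' k) * pderiv k f = ∑ k, C (v k) * pderiv (Sum.inr k : Fin n ⊕ Fin m) f := by
      rw [Fintype.sum_sum_type]
      simp only [hv', Sum.elim_inl, Sum.elim_inr, C_0, zero_mul, Finset.sum_const_zero, zero_add]
    have h3 : f.totalDegree ≤
        (∑ k, C (v k) * pderiv (Sum.inr k : Fin n ⊕ Fin m) f).totalDegree := hmin _ h0 (by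
      rw [← h2, map_sum]
      refine Finset.sum_congr rfl fun k _ => ?_
      rw [map_mul, algHom_C]
      rfl)
    have h4 := deg_drop f v' (by rw [hGv]; exact h0)
    rw [hGv] at h4
    omega
  exact hy u hu (red_many x y f hf0 hfD hf u w (red_inv' f u w hkey))

theorem strat_coord {M n m s D q : ℕ} (hs : s < m) (l' : Fin M → Cc)
    (hl : LinearIndependent (QC Cc) l') (hl' : ∀ j, l' j ∈ Lt) (x : Fin n → Cc)
    (hq : q = m * (m - 1) + (m - 1 - s) * M + (D + (n + m)).choose (n + m))
    (φ : Fin q → ((Fin m × Fin M → (QC Cc)) →ₗ[(QC Cc)] (QC Cc))) :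
    ∃ P : MvPolynomial (Fin q) (QC Cc),
      P ≠ 0 ∧ ∀ b : Fin m → Fin M → (QC Cc), Strat D s x (yy l' b) →
        MvPolynomial.eval (fun k => φ k (fun q => b q.1 q.2)) P = 0 := by
  subst hq
  obtain ⟨P, h1, h2⟩ := rel_dim (D := D) (ρ := m - 1 - s) l' hl hl' x φ
  refine ⟨P, h1, fun b hy => ?_⟩
  obtain ⟨f, hf0, hfD, hf, hmin⟩ := exists_min _ hy.1
  exact h2 b f hf0 hfD hf (rank_many hs x _ hy.2 f hf0 hfD hf hmin)

/-- **The dimension theorem.** -/
theorem strat_dim (W : Submodule (QC Cc) Cc) [FiniteDimensional (QC Cc) W] (hW : W ≤ Lt)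
    {n m s D d : ℕ} (hs : s < m) (x : Fin n → Cc)
    (hd : d = m * (m - 1) + (m - 1 - s) * finrank (QC Cc) W + (D + (n + m)).choose (n + m))
    (φ : Fin d → ((Fin m → W) →ₗ[(QC Cc)] (QC Cc))) :
    ∃ P : MvPolynomial (Fin d) (QC Cc), P ≠ 0 ∧ ∀ y : Fin m → W,
      Strat D s x (fun i => (y i : Cc)) → MvPolynomial.eval (fun k => φ k y) P = 0 := by
  obtain ⟨P, h1, h2⟩ := strat_coord (D := D) hs (bs W) (bs_li W)
    (fun j => hW (Module.finBasis (QC Cc) W j).2) x hd (fun k => φ k ∘ₗ mkV m)
  refine ⟨P, h1, ?_⟩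
  intro y hy
  have h3 : yy (bs W) (fun i j => (Module.finBasis (QC Cc) W).repr (y i) j) = fun i => (y i : Cc) := by
    funext i
    exact cmb_bs' W (y i)
  have h4 := h2 (fun i j => (Module.finBasis (QC Cc) W).repr (y i) j) (by
    rw [h3]
    exact hy)
  have h5 : mkV (K := (QC Cc)) (W := W) m (fun q => (Module.finBasis (QC Cc) W).repr (y q.1) q.2) =
      y := by
    funext i
    exact (Module.finBasis (QC Cc) W).sum_repr (y i)
  simp only [LinearMap.comp_apply, h5] at h4
  exact h4

/-- **The counting theorem.** -/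
theorem strat_count {N : ℕ} (l : Fin N → Cc) (hl : LinearIndependent (QC Cc) l)
    (hl' : ∀ j, l j ∈ Lt) {n m s D d : ℕ} (hs : s < m) (x : Fin n → Cc)
    (hd : d + 1 = m * (m - 1) + (m - 1 - s) * N + (D + (n + m)).choose (n + m)) :
    ∃ κ : ℕ, ∀ H : ℕ, 1 ≤ H → Set.ncard {A : Fin m → Fin N → ℤ | (∀ i j, |A i j| ≤ H) ∧
      Strat D s x (fun i => ∑ j, (A i j : Cc) * l j)} ≤ κ * H ^ d := by
  classical
  let T : Set (Fin m × Fin N → (QC Cc)) := {z | Strat D s x (yy l fun i j => z (i, j))}
  obtain ⟨κ, hκ⟩ := count_gen (d := d) T (by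
    intro φ
    obtain ⟨P, h1, h2⟩ := strat_coord (D := D) hs l hl hl' x hd φ
    exact ⟨P, h1, fun z hz => h2 (fun i j => z (i, j)) hz⟩)
  refine ⟨κ, fun H hH => ?_⟩
  set V := {A : Fin m → Fin N → ℤ | (∀ i j, |A i j| ≤ H) ∧
      Strat D s x (fun i => ∑ j, (A i j : Cc) * l j)} with hV
  have hfin : V.Finite := (box_finite m N H).subset fun A hA => hA.1
  rw [Set.ncard_eq_toFinset_card V hfin]
  let g : (Fin m → Fin N → ℤ) → (Fin m × Fin N → ℤ) := fun A p => A p.1 p.2
  have hg : Function.Injective g := by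
    intro A A' h
    funext i k
    exact congrFun h (i, k)
  rw [← Finset.card_image_of_injective _ hg]
  refine hκ H hH _ ?_
  intro a ha
  obtain ⟨A, hA, rfl⟩ := Finset.mem_image.1 ha
  rw [Set.Finite.mem_toFinset] at hA
  obtain ⟨hA1, hA2⟩ := hA
  refine ⟨fun p => hA1 _ _, ?_⟩
  change Strat D s x (yy l fun i j => ((g A (i, j) : ℤ) : (QC Cc)))
  have h6 : (yy l fun i j => ((g A (i, j) : ℤ) : (QC Cc))) = fun i => ∑ k, (A i k : Cc) * l k := by
    funext i
    simp only [yy, cmb, g]
    refine Finset.sum_congr rfl fun k _ => ?_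
    rw [map_intCast]
  rw [h6]
  exact hA2

end Pool.Agent.Y787.HS
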