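import Pool.Agent.Y787.HS.Mas

/-!
# Linear systems of polynomial relations
-/

set_option autoImplicit false

namespace Pool.Agent.Y787.HS
open Filter Module Pool.Agent.Y787.GL Pool.Agent.Y787.FE
open Pool.Agent.TH519.GL Pool.Agent.TH519.HS
open Pool.Agent.Y787 (QC mem_QC HypC hyperplane hyperplane' Lt_one baker')

variable {Cc : Type} [Field Cc] [CharZero Cc] [IsAlgClosed Cc] [Uncountable Cc] {Lt : Submodule (QC Cc) Cc}
  [HypC Lt]

theorem Rel_congr {r m : ℕ} {G G' : Fin r → Fin m → Cc} {κ : Cc} (hκ : κ ≠ 0)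
    (h : ∀ j i, G' j i = κ * G j i) : Rel G' = Rel G := by
  ext v
  rw [mem_Rel, mem_Rel]
  have h1 : ∀ j, ∑ i, (v i : Cc) * G' j i = κ * ∑ i, (v i : Cc) * G j i := by
    intro j
    rw [Finset.mul_sum]
    refine Finset.sum_congr rfl fun i _ => ?_
    rw [h]
    ring
  constructor
  · intro h2 j
    have := h2 j
    rw [h1] at this
    exact (mul_eq_zero.1 this).resolve_left hκ
  · intro h2 j
    rw [h1, h2, mul_zero]

/-- the point with coordinates `b` -/
noncomputable def yy {m M : ℕ} (l' : Fin M → Cc) (b : Fin m → Fin M → (QC Cc)) : Fin m → Cc :=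
  fun i => cmb l' (b i)

/-- **Linear systems.** -/
theorem lin_sys {M m r s ρ : ℕ} (l' : Fin M → Cc) (hl : LinearIndependent (QC Cc) l')
    (hl' : ∀ j, l' j ∈ Lt) (F : Fin (r + 1) → MvPolynomial (Fin m) Cc) (e : Fin s → Fin m)
    (φ : Fin (m * (m - 1) + ρ * M + r + 1) → ((Fin s × Fin M → (QC Cc)) →ₗ[(QC Cc)] (QC Cc))) :
    ∃ P : MvPolynomial (Fin (m * (m - 1) + ρ * M + r + 1)) (QC Cc), P ≠ 0 ∧
      ∀ (b : Fin m → Fin M → (QC Cc)) (c : Fin (r + 1) → (QC Cc)), c ≠ 0 →
        ∑ j, (c j : Cc) * MvPolynomial.eval (yy l' b) (F j) = 0 →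
        finrank (QC Cc) ((Rel fun (_ : Fin 1) i => ∑ j, (c j : Cc) *
          MvPolynomial.eval (yy l' b) (MvPolynomial.pderiv i (F j))).map
            (LinearMap.funLeft (QC Cc) (QC Cc) e)) ≤ ρ →
        MvPolynomial.eval (fun k => φ k (fun q => b (e q.1) q.2)) P = 0 := by
  classical
  -- the charts
  let f : Fin (r + 1) → Fin 1 → MvPolynomial (Fin m ⊕ Fin r) Cc := fun j₀ _ =>
    MvPolynomial.rename Sum.inl (F j₀) + ∑ l, MvPolynomial.X (Sum.inr l) *
      MvPolynomial.rename Sum.inl (F (j₀.succAbove l))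
  choose P hP1 hP2 using fun j₀ => master (ρ := ρ) l' hl hl' (f j₀) e φ
  refine ⟨∏ j₀, P j₀, Finset.prod_ne_zero_iff.2 fun j₀ _ => hP1 j₀, fun b c hc h1 h2 => ?_⟩
  obtain ⟨j₀, hj₀⟩ : ∃ j₀, c j₀ ≠ 0 := by
    by_contra h
    push Not at h
    exact hc (funext h)
  have hj₀' : (c j₀ : Cc) ≠ 0 := by exact_mod_cast hj₀
  rw [map_prod]
  refine Finset.prod_eq_zero (Finset.mem_univ j₀) ?_
  set c' : Fin r → (QC Cc) := fun l => c (j₀.succAbove l) / c j₀ with hc'
  have hev : ∀ g : MvPolynomial (Fin m) Cc,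
      MvPolynomial.eval (pt l' b c') (MvPolynomial.rename Sum.inl g) =
        MvPolynomial.eval (yy l' b) g := by
    intro g
    rw [MvPolynomial.eval_rename]
    rfl
  have hevX : ∀ l, MvPolynomial.eval (pt l' b c') (MvPolynomial.X (Sum.inr l)) = (c' l : Cc) := by
    intro l
    rw [MvPolynomial.eval_X]
    rfl
  have hsplit : ∀ a : Fin (r + 1) → Cc, a j₀ + ∑ l, (c' l : Cc) * a (j₀.succAbove l) =
      (c j₀ : Cc)⁻¹ * ∑ j, (c j : Cc) * a j := by
    intro a
    rw [Fin.sum_univ_succAbove _ j₀, mul_add, Finset.mul_sum, ← mul_assoc,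
      inv_mul_cancel₀ hj₀', one_mul]
    congr 1
    refine Finset.sum_congr rfl fun l _ => ?_
    rw [hc']
    push_cast
    rw [div_eq_mul_inv]
    ring
  refine hP2 j₀ b c' (fun _ => ?_) ?_
  · change MvPolynomial.eval _ (MvPolynomial.rename Sum.inl (F j₀) +
      ∑ l, MvPolynomial.X (Sum.inr l) * MvPolynomial.rename Sum.inl (F (j₀.succAbove l))) = 0
    rw [map_add, map_sum]
    simp only [map_mul, hev, hevX]
    rw [hsplit (fun j => MvPolynomial.eval (yy l' b) (F j)), h1, mul_zero]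
  · have h3 : RelP (pt l' b c') (f j₀) = Rel fun (_ : Fin 1) i => ∑ j, (c j : Cc) *
          MvPolynomial.eval (yy l' b) (MvPolynomial.pderiv i (F j)) := by
      refine Rel_congr (inv_ne_zero hj₀') fun _ i => ?_
      change MvPolynomial.eval _ (MvPolynomial.pderiv (Sum.inl i)
        (MvPolynomial.rename Sum.inl (F j₀) + ∑ l, MvPolynomial.X (Sum.inr l) *
          MvPolynomial.rename Sum.inl (F (j₀.succAbove l)))) = _
      have h4 : ∀ l : Fin r, MvPolynomial.pderiv (Sum.inl i) (MvPolynomial.X (Sum.inr l) *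
          MvPolynomial.rename (Sum.inl : Fin m → Fin m ⊕ Fin r) (F (j₀.succAbove l))) =
          MvPolynomial.X (Sum.inr l) * MvPolynomial.rename Sum.inl
            (MvPolynomial.pderiv i (F (j₀.succAbove l))) := by
        intro l
        rw [MvPolynomial.pderiv_mul, MvPolynomial.pderiv_X_of_ne (by simp), zero_mul, zero_add,
          MvPolynomial.pderiv_rename Sum.inl_injective]
      rw [map_add, map_sum, MvPolynomial.pderiv_rename Sum.inl_injective, map_add, map_sum]
      simp only [h4, map_mul, hev, hevX]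
      exact hsplit (fun j => MvPolynomial.eval (yy l' b) (MvPolynomial.pderiv i (F j)))
    rw [h3]
    exact h2

end Pool.Agent.Y787.HS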